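import Pool.Agent.MP_0854a0_ag.Dim.St

namespace Pool.Agent.Adm.Dim

theorem sAmal : SAmal := by
  intro r
  induction r with
  | zero => exact fun B => ⟨K0, inferInstance, inferInstance, RingHom.id _, fun v => v.elim0,
      fun v => v.elim0⟩
  | succ r ih =>
    intro B
    obtain ⟨k, _, _, θ, ψ, h⟩ := ih fun v => B v.succ
    obtain ⟨k', _, _, ψ1, ψ2, e⟩ := exists_amalgam0 (B 0).θ θ
    refine ⟨k', inferInstance, inferInstance, ψ2.comp θ,
      Fin.cases ψ1 fun v => ψ2.comp (ψ v), fun v => ?_⟩
    induction v using Fin.cases with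
    | zero => exact e
    | succ v => exact (RingHom.comp_assoc _ _ _).trans (congrArg ψ2.comp (h v))

end Pool.Agent.Adm.Dim
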