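import Pool.Agent.MP_0854a0_ag.Dim.St

/-! Equal types and equal cross ratio loci give the reverse inclusion of quotients. -/

namespace Pool.Agent.Adm.Dim

open Sum

theorem sBack (h : SIso) : SBack := by
  intro n σ σ' z z' τ f hR hS
  obtain ⟨g, hg, hδ⟩ := h n σ σ' τ f hR fun v => (hS v).1
  rintro G _ _ ⟨d', R', ⟨hV, hd⟩, htop⟩
  refine ⟨fun s => d' (g s), fun v => R' (f v), ⟨fun v => ?_, fun δ => ?_⟩, ?_⟩
  · obtain ⟨i0, i1, i2, hm⟩ := σ.exists_triple v
    have hl : ∀ s : σ.Sl v, ∃ l, σ.dir v l = s := fun s => by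
      obtain ⟨l, hl⟩ := σ.exists_dir s.1
      exact ⟨l, by rwa [s.2] at hl⟩
    choose l hl using hl
    have hb : ∀ s : σ.Sl v, σ'.base (g s) = f v := fun s => by
      rw [← hl s, hg, σ'.base_dir]
    have hsur : Function.Surjective fun s : σ.Sl v => (⟨g s, hb s⟩ : σ'.Sl (f v)) := by
      intro s'
      obtain ⟨l', hl'⟩ := σ'.exists_dir s'.1
      rw [s'.2] at hl'
      refine ⟨⟨σ.dir v (τ.symm l'), σ.base_dir v _⟩, Subtype.ext ?_⟩
      show g (σ.dir v (τ.symm l')) = s'.1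
      rw [hg, τ.apply_symm_apply, hl']
    have h1 : VC z'.θ (fun s : σ.Sl v => z'.x (g s)) (fun s => d' (g s)) (R' (f v)) :=
      VP.reindex (hV (f v)) _ hsur
    have hi : Function.Injective fun s : σ.Sl v => z.x s := fun s s' e =>
      Subtype.ext (z.inj _ _ (s.2.trans s'.2.symm) e)
    have hi' : Function.Injective fun s : σ.Sl v => z'.x (g s) := fun s s' e =>
      Subtype.ext (g.injective (z'.inj _ _ ((hb s).trans (hb s').symm) e))
    refine VC.gen_cr hi' hi (s0 := ⟨σ.dir v i0, σ.base_dir v i0⟩)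
      (s1 := ⟨σ.dir v i1, σ.base_dir v i1⟩) (s2 := ⟨σ.dir v i2, σ.base_dir v i2⟩)
      (fun e => hm.1 (congrArg Subtype.val e)) (fun e => hm.2.1 (congrArg Subtype.val e))
      (fun e => hm.2.2 (congrArg Subtype.val e)) ?_ h1
    have k := ((hS v).2 i0 i1 i2 hm).comp l
    simpa only [Pt.crs, ← hg, hl] using k
  · obtain ⟨δ', e1, e2⟩ := hδ δ
    show d' (g (inl δ.symm)) = (d' (g (inl δ)))⁻¹
    rw [e1, e2]
    exact hd δ'
  · rw [← htop]
    exact f.iSup_comp

end Pool.Agent.Adm.Dim
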