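import Pool.Agent.MP_0854a0_ag.Dim.St

/-! Coverings of a chain of lines as families. -/

namespace Pool.Agent.Adm.Dim

namespace CQX

theorem sup_succ {α : Type} [CompleteLattice α] {n : ℕ} (f : Fin (n + 1) → α) :
    ⨆ v, f v = f 0 ⊔ ⨆ v : Fin n, f v.succ :=
  le_antisymm (iSup_le (Fin.cases le_sup_left fun v =>
    (le_iSup (fun v : Fin n => f v.succ) v).trans le_sup_right))
    (sup_le (le_iSup f 0) (iSup_le fun v => le_iSup f v.succ))

theorem key {G : Type} [Group G] (L : List Blk) : ∀ (g0 g1 : G) (R : Subgroup G),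
    CQ L g0 g1 R ↔ ∃ (u : ℕ → G) (Rv : Fin L.length → Subgroup G), u 0 = g0 ∧
      u L.length = g1⁻¹ ∧ (∀ v, (L.get v).V (u v) (u (v + 1))⁻¹ (Rv v)) ∧ R = ⨆ v, Rv v := by
  induction L with
  | nil =>
    intro g0 g1 R
    constructor
    · rintro ⟨rfl, rfl⟩
      exact ⟨fun _ => g0, Fin.elim0, rfl, (inv_inv _).symm, fun v => v.elim0,
        (iSup_of_empty (ι := Fin 0) _).symm⟩
    · rintro ⟨u, Rv, rfl, h, -, rfl⟩
      exact ⟨inv_eq_iff_eq_inv.1 h.symm, iSup_of_empty (ι := Fin 0) _⟩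
  | cons B L ih =>
    intro g0 g1 R
    constructor
    · rintro ⟨g, R1, R2, h1, h2, rfl⟩
      obtain ⟨u, Rv, a, b, c, rfl⟩ := (ih _ _ _).1 h2
      refine ⟨fun i => Nat.casesOn i g0 u, Fin.cons R1 Rv, rfl, b, Fin.cases ?_ c,
        (sup_succ (Fin.cons R1 Rv : Fin (L.length + 1) → Subgroup G)).symm⟩
      change B.V g0 (u 0)⁻¹ R1
      rwa [a, inv_inv]
    · rintro ⟨u, Rv, rfl, b, c, rfl⟩
      exact ⟨(u 1)⁻¹, Rv 0, ⨆ v : Fin L.length, Rv v.succ, c 0, (ih _ _ _).2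
        ⟨fun i => u (i + 1), fun v => Rv v.succ, (inv_inv _).symm, b, fun v => c v.succ, rfl⟩,
        sup_succ Rv⟩

end CQX

theorem sCQ : SCQ := by
  intro G _ L hL
  constructor
  · rintro ⟨g0, g1, h⟩
    obtain ⟨u, Rv, -, -, c, e⟩ := (CQX.key L _ _ _).1 h
    exact ⟨fun v => u v, fun v => (u (v + 1))⁻¹, Rv, c, fun v w h => by rw [inv_inv, h], e.symm⟩
  · rintro ⟨a, b, R, h1, h2, h3⟩
    have hp := List.length_pos_iff.2 hL
    let u : ℕ → G := fun i =>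
      if h : i < L.length then a ⟨i, h⟩ else (b ⟨L.length - 1, by omega⟩)⁻¹
    refine ⟨u 0, (u L.length)⁻¹, (CQX.key L _ _ _).2
      ⟨u, R, rfl, (inv_inv _).symm, fun v => ?_, h3.symm⟩⟩
    have e1 : u v = a v := dif_pos v.2
    have e2 : (u (v + 1))⁻¹ = b v := by
      by_cases h : v.1 + 1 < L.length
      · rw [show u (v + 1) = a ⟨_, h⟩ from dif_pos h, h2 v ⟨_, h⟩ rfl, inv_inv]
      · rw [show u (v + 1) = _ from dif_neg h, inv_inv]
        congr 1
        exact Fin.ext (by have := v.2; simp only; omega)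
    rw [e1, e2]
    exact h1 v

end Pool.Agent.Adm.Dim
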