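import Pool.Agent.MP_0854a0_ag.Dim.St

namespace Pool.Agent.Adm.Dim

namespace ChainX

theorem cq_append {G : Type} [Group G] (L M : List Blk) (g0 g1 : G) (R : Subgroup G) :
    CQ (L ++ M) g0 g1 R ↔ ∃ g R1 R2, CQ L g0 g R1 ∧ CQ M g⁻¹ g1 R2 ∧ R = R1 ⊔ R2 := by
  induction L generalizing g0 R with
  | nil =>
    constructor
    · intro h
      exact ⟨g0⁻¹, ⊥, R, ⟨rfl, rfl⟩, by rwa [inv_inv], (bot_sup_eq R).symm⟩
    · rintro ⟨g, R1, R2, ⟨rfl, rfl⟩, h, rfl⟩
      rwa [inv_inv, ← bot_sup_eq R2] at h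
  | cons B L ih =>
    constructor
    · rintro ⟨g, R1, R2, h1, h2, rfl⟩
      obtain ⟨g', S1, S2, k1, k2, rfl⟩ := (ih _ _).1 h2
      exact ⟨g', R1 ⊔ S1, S2, ⟨g, R1, S1, h1, k1, rfl⟩, k2, (sup_assoc _ _ _).symm⟩
    · rintro ⟨g', _, S2, ⟨g, R1, S1, h1, k1, rfl⟩, k2, rfl⟩
      exact ⟨g, R1, S1 ⊔ S2, h1, (ih _ _).2 ⟨g', S1, S2, k1, k2, rfl⟩, sup_assoc _ _ _⟩

theorem tL_append (L M : List Blk) : tL (L ++ M) = tL L + tL M := by simp [tL]

theorem szL_append (L M : List Blk) : szL (L ++ M) = szL L + szL M := by simp [szL]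

theorem lt_left {L L' : List Blk} (h : LtL L L') (M : List Blk) : LtL (L ++ M) (L' ++ M) := by
  refine ⟨fun G _ _ g0 g1 R hq => ?_, ?_⟩
  · obtain ⟨g, R1, R2, h1, h2, e⟩ := (cq_append _ _ _ _ _).1 hq
    exact (cq_append _ _ _ _ _).2 ⟨g, R1, R2, h.1 G _ _ _ h1, h2, e⟩
  · have := h.2
    simp only [List.length_append, tL_append]
    omega

theorem lt_right {L L' : List Blk} (h : LtL L L') (M : List Blk) : LtL (M ++ L) (M ++ L') := by
  refine ⟨fun G _ _ g0 g1 R hq => ?_, ?_⟩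
  · obtain ⟨g, R1, R2, h1, h2, e⟩ := (cq_append _ _ _ _ _).1 hq
    exact (cq_append _ _ _ _ _).2 ⟨g, R1, R2, h1, h.1 G _ _ _ h2, e⟩
  · have := h.2
    simp only [List.length_append, tL_append]
    omega

theorem lt_up {B B' : Blk} (h : B.Le B') (ht : B.t < B'.t) : LtL [B] [B'] := by
  refine ⟨fun G _ _ g0 g1 R hq => ?_, Or.inr ⟨rfl, by simpa [tL] using ht⟩⟩
  obtain ⟨g, R1, R2, h1, h2, e⟩ := hq
  exact ⟨g, R1, R2, h G _ _ _ h1, h2, e⟩

theorem lt_mer {B1 B2 B : Blk} (h : Blk.Mer B1 B2 B) : LtL ([B1] ++ [B2]) [B] := by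
  refine ⟨fun G _ _ g0 g1 R hq => ?_, Or.inl (by simp)⟩
  obtain ⟨g, R1, _, h1, ⟨g', S1, S2, k1, k2, rfl⟩, rfl⟩ := hq
  exact ⟨g', R1 ⊔ S1, S2, h G _ _ _ _ _ h1 k1, k2, (sup_assoc _ _ _).symm⟩

/-- A path of N strict steps from L to L' through nonempty chains of size m. -/
def St (m : ℕ) : ℕ → List Blk → List Blk → Prop
  | 0, L, L' => (L ≠ [] ∧ szL L = m) ∧ L = L'
  | N + 1, L, L' => (L ≠ [] ∧ szL L = m) ∧ ∃ M, LtL L M ∧ St m N M L'

theorem St.ok {m N : ℕ} {L L' : List Blk} (h : St m N L L') : L ≠ [] ∧ szL L = m := by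
  cases N <;> exact h.1

theorem St.trans {m N N' : ℕ} {L L' L'' : List Blk} (h : St m N L L') (h' : St m N' L' L'') :
    St m (N' + N) L L'' := by
  induction N generalizing L with
  | zero => exact h.2 ▸ h'
  | succ N ih =>
    obtain ⟨h1, M, h2, h3⟩ := h
    exact ⟨h1, M, h2, ih h3⟩

theorem St.left {m N : ℕ} {L L' : List Blk} (h : St m N L L') (M : List Blk) :
    St (m + szL M) N (L ++ M) (L' ++ M) := by
  induction N generalizing L with
  | zero => exact ⟨⟨by simp [h.1.1], by rw [szL_append, h.1.2]⟩, by rw [h.2]⟩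
  | succ N ih =>
    obtain ⟨h1, M', h2, h3⟩ := h
    exact ⟨⟨by simp [h1.1], by rw [szL_append, h1.2]⟩, _, lt_left h2 M, ih h3⟩

theorem St.right {m N : ℕ} {L L' : List Blk} (h : St m N L L') (M : List Blk) :
    St (szL M + m) N (M ++ L) (M ++ L') := by
  induction N generalizing L with
  | zero => exact ⟨⟨by simp [h.1.1], by rw [szL_append, h.1.2]⟩, by rw [h.2]⟩
  | succ N ih =>
    obtain ⟨h1, M', h2, h3⟩ := h
    exact ⟨⟨by simp [h1.1], by rw [szL_append, h1.2]⟩, _, lt_right h2 M, ih h3⟩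

theorem St.seq {m N : ℕ} {L L' : List Blk} (h : St m N L L') : ∃ c : ℕ → List Blk, c 0 = L ∧
    (∀ i, c i ≠ [] ∧ szL (c i) = m) ∧ ∀ i < N, LtL (c i) (c (i + 1)) := by
  induction N generalizing L with
  | zero => exact ⟨fun _ => L, rfl, fun _ => h.1, fun i hi => absurd hi (Nat.not_lt_zero i)⟩
  | succ N ih =>
    obtain ⟨h1, M, h2, h3⟩ := h
    obtain ⟨c, c0, c1, c2⟩ := ih h3
    refine ⟨fun i => Nat.casesOn i L c, rfl, fun i => ?_, fun i hi => ?_⟩
    · cases i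
      · exact h1
      · exact c1 _
    · cases i
      · rw [← c0] at h2
        exact h2
      · exact c2 _ (by omega)

theorem szL_one (B : Blk) : szL [B] = B.sz := by simp [szL]

theorem st_one {m : ℕ} {L : List Blk} {B : Blk} (h0 : L ≠ []) (h1 : szL L = m) (h2 : B.sz = m)
    (h : LtL L [B]) : St m 1 L [B] :=
  ⟨⟨h0, h1⟩, [B], h, ⟨by simp, by rw [szL_one, h2]⟩, rfl⟩

/-- A path of N steps ending at one line with m marks and at most t moduli. -/
def P (m t N : ℕ) : Prop := ∃ B : Blk, B.sz = m ∧ B.t ≤ t ∧ ∃ L, St m N L [B]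

theorem base (hM : SMerge) {m : ℕ} (h : 1 ≤ m) : P m 0 0 := by
  obtain ⟨B, h1, h2⟩ := hM.2 m h
  exact ⟨B, h1, h2.le, [B], ⟨by simp, by rw [szL_one, h1]⟩, rfl⟩

theorem up (hU : SUp) {m t N : ℕ} (h : P m t N) (ht : t + 1 < m) : P m (t + 1) (N + 1) := by
  obtain ⟨B, h1, h2, L, h3⟩ := h
  obtain ⟨B', k1, k2, k3, k4⟩ := hU B (by omega)
  have := h3.trans (st_one (by simp) (by rw [szL_one, h1]) (k1.trans h1) (lt_up k2 k3))
  exact ⟨B', k1.trans h1, by omega, L, by rwa [add_comm] at this⟩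

theorem ups (hU : SUp) {m t N : ℕ} (h : P m t N) (j : ℕ) (ht : t + j < m) :
    P m (t + j) (N + j) := by
  induction j with
  | zero => exact h
  | succ j ih => exact up hU (ih (by omega)) ht

theorem merge (hM : SMerge) {a b e N1 N2 : ℕ} (h1 : P a e N1) (h2 : P b e N2) :
    P (a + b) (e + 1) (N1 + N2 + 1) := by
  obtain ⟨B1, a1, a2, L1, a3⟩ := h1
  obtain ⟨B2, b1, b2, L2, b3⟩ := h2
  obtain ⟨B, k1, k2, k3⟩ := hM.1 B1 B2 e a2 b2
  rw [a1, b1] at k1
  have s1 := a3.left L2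
  have s2 := b3.right [B1]
  rw [b3.ok.2] at s1
  rw [szL_one, a1] at s2
  have := (s1.trans s2).trans (st_one (by simp) (by rw [szL_append, szL_one, szL_one, a1, b1]) k1
    (lt_mer k3))
  exact ⟨B, k1, k2, _, by rwa [add_comm 1, add_comm N2] at this⟩

theorem main (hE : SEe) (hU : SUp) (hM : SMerge) (m : ℕ) :
    (1 ≤ m → P m (m - 1) (ee m)) ∧ (2 ≤ m → ∃ N, N + 1 = ee m ∧ P m (m - 2) N) := by
  have e1 : ee 1 = 0 := by simp [ee]
  induction m using Nat.strong_induction_on with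
  | _ m ih =>
    have Y : 2 ≤ m → ∃ N, N + 1 = ee m ∧ P m (m - 2) N := by
      intro h2
      rcases Nat.even_or_odd' m with ⟨a, rfl | rfl⟩
      · by_cases ha : a = 1
        · subst ha
          exact ⟨0, by rw [hE.1 1, e1], base hM (by omega)⟩
        · have x := (ih a (by omega)).1 (by omega)
          have y := ups hU (merge hM x x) (a - 2) (by omega)
          refine ⟨_, ?_, by
            rwa [show a - 1 + 1 + (a - 2) = 2 * a - 2 by omega, ← two_mul a] at y⟩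
          rw [hE.1 a]
          omega
      · have x := (ih a (by omega)).1 (by omega)
        obtain ⟨N, hN, x'⟩ := (ih (a + 1) (by omega)).2 (by omega)
        rw [show a + 1 - 2 = a - 1 by omega] at x'
        have y := ups hU (merge hM x x') (a - 1) (by omega)
        refine ⟨_, ?_, by
          rwa [show a - 1 + 1 + (a - 1) = 2 * a + 1 - 2 by omega,
            show a + (a + 1) = 2 * a + 1 by omega] at y⟩
        rw [hE.2.1 a]
        omega
    refine ⟨fun h1 => ?_, Y⟩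
    by_cases hm : m = 1
    · subst hm
      rw [e1]
      exact base hM le_rfl
    · obtain ⟨N, hN, x⟩ := Y (by omega)
      have := up hU x (by omega)
      rwa [hN, show m - 2 + 1 = m - 1 by omega] at this

end ChainX

theorem sChain (hE : SEe) (hU : SUp) (hM : SMerge) : SChain := by
  intro m hm
  obtain ⟨_, -, -, L, h⟩ := (ChainX.main hE hU hM m).1 hm
  obtain ⟨c, -, h1, h2⟩ := h.seq
  exact ⟨c, h1, h2⟩

end Pool.Agent.Adm.Dim
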