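import Pool.Agent.MP_0854a0_ag.Dim.St

/-! Two components see every mark in one of two directions. -/

namespace Pool.Agent.Adm.Dim

open Sum

namespace CompatX

variable {n : ℕ} (σ : Shape n)

theorem cover (m : ℕ) : ∀ δ δ' : σ.T.Dart, σ.T.dist δ'.fst δ.fst = m → δ'.fst ∈ σ.Br δ →
    δ.fst ∈ σ.Br δ' → ∀ x, x ∈ σ.Br δ ∨ x ∈ σ.Br δ' := by
  induction m using Nat.strong_induction_on with
  | _ m ih =>
    intro δ δ' hm h1 h2 x
    by_cases h : δ'.snd ∈ σ.Br δ
    · have hne : δ.fst ≠ δ'.snd := fun e => σ.fst_notMem_Br δ (e ▸ h)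
      obtain ⟨δ1, e1, e2⟩ := σ.exists_dart hne
      have h3 : δ1 ≠ δ'.symm := fun e => (σ.mem_Br_symm δ' _).1 (e ▸ e2) h2
      refine (ih _ ?_ δ δ1 rfl (e1 ▸ h) e2 x).imp_right fun a => (σ.Br_ssubset e1 h3).1 a
      rw [e1, ← hm]
      exact h2
    · rw [σ.eq_symm_of_leaves h1 h, σ.mem_Br_symm]
      exact em _

theorem two (u w : Fin σ.r) (h : u ≠ w) :
    ∃ s s' : σ.Slot, ∀ l, σ.dir u l = s ∨ σ.dir w l = s' := by
  obtain ⟨δ, e1, e2⟩ := σ.exists_dart h.symm
  obtain ⟨δ', e3, e4⟩ := σ.exists_dart h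
  exact ⟨inl δ, inl δ', fun l => (cover σ _ δ δ' rfl (e3 ▸ e2) (e1 ▸ e4) (σ.comp l)).imp
    (fun a => (σ.dir_eq_inl_iff _ _ _).2 ⟨e1, a⟩) fun a => (σ.dir_eq_inl_iff _ _ _).2 ⟨e3, a⟩⟩

theorem three (v : Fin σ.r) (s s' : σ.Slot) : ¬ ∀ l, σ.dir v l = s ∨ σ.dir v l = s' := by
  intro h
  obtain ⟨a, b, c, h1, h2, h3⟩ := σ.exists_triple v
  rcases h a with ha | ha <;> rcases h b with hb | hb <;> rcases h c with hc | hc <;>
    first
    | exact h1 (ha.trans hb.symm)
    | exact h2 (ha.trans hc.symm)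
    | exact h3 (hb.trans hc.symm)

end CompatX

theorem sCompat : SCompat := by
  intro n σ
  refine ⟨CompatX.two σ, fun u w a b c hu hw => ?_, fun u w l0 h => ?_⟩
  · by_contra hne
    obtain ⟨s, s', h⟩ := CompatX.two σ u w hne
    rcases h a with ha | ha <;> rcases h b with hb | hb <;> rcases h c with hc | hc <;>
      first
      | exact hu.1 (ha.trans hb.symm)
      | exact hu.2.1 (ha.trans hc.symm)
      | exact hu.2.2 (hb.trans hc.symm)
      | exact hw.1 (ha.trans hb.symm)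
      | exact hw.2.1 (ha.trans hc.symm)
      | exact hw.2.2 (hb.trans hc.symm)
  · by_contra hne
    obtain ⟨s, s', hs⟩ := CompatX.two σ u w hne
    rcases hs l0 with h0 | h0
    · exact CompatX.three σ w (σ.dir w l0) s' fun l =>
        (hs l).imp_left fun a => (h l).1 (a.trans h0.symm)
    · exact CompatX.three σ u s (σ.dir u l0) fun l =>
        (hs l).imp_right fun a => (h l).2 (a.trans h0.symm)

end Pool.Agent.Adm.Dim
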