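import Pool.Agent.MP_0854a0_ag.Dim.St

/-! Counting the special points along a refinement. -/

namespace Pool.Agent.Adm.Dim

open Finset

namespace CountX

theorem sum_le {V A S : Type} [Fintype V] [DecidableEq A] [DecidableEq S] (dir : V → A → S)
    (h : ∀ u w, u ≠ w → ∃ s s', ∀ l, dir u l = s ∨ dir w l = s') (R : Finset A) :
    ∑ v, ((R.image (dir v)).card - 2) ≤ R.card - 2 := by
  classical
  induction R using Finset.induction_on with
  | empty => simp
  | insert l R hl ih =>
    let P : V → Prop := fun v => 2 ≤ (R.image (dir v)).card ∧ dir v l ∉ R.image (dir v)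
    have h1 : ∀ v, ((insert l R).image (dir v)).card - 2 ≤
        ((R.image (dir v)).card - 2) + if P v then 1 else 0 := fun v => by
      rw [image_insert]
      by_cases e : dir v l ∈ R.image (dir v)
      · rw [insert_eq_of_mem e]
        omega
      · rw [card_insert_of_notMem e]
        by_cases e' : 2 ≤ (R.image (dir v)).card
        · rw [if_pos ⟨e', e⟩]
          omega
        · omega
    have key : ∀ u w s s', P u → P w → (∀ x, dir u x = s ∨ dir w x = s') → dir u l ≠ s := by
      intro u w s s' pu pw hs e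
      have h2 : R.image (dir w) ⊆ {s'} := fun y hy => by
        obtain ⟨x, hx, rfl⟩ := mem_image.1 hy
        exact mem_singleton.2 ((hs x).resolve_left fun e' =>
          pu.2 (mem_image.2 ⟨x, hx, e'.trans e.symm⟩))
      have h3 := card_le_card h2
      rw [card_singleton] at h3
      have := pw.1
      omega
    have h2 : (univ.filter P).card ≤ 1 := card_le_one.2 fun u hu w hw => by
      by_contra hn
      obtain ⟨s, s', hs⟩ := h u w hn
      have pu := (mem_filter.1 hu).2
      have pw := (mem_filter.1 hw).2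
      rcases hs l with e | e
      · exact key u w s s' pu pw hs e
      · exact key w u s' s pw pu (fun x => (hs x).symm) e
    have h3 : 0 < (univ.filter P).card → 2 ≤ R.card := fun hp => by
      obtain ⟨u, hu⟩ := card_pos.1 hp
      exact (mem_filter.1 hu).2.1.trans card_image_le
    have h4 := sum_le_sum fun v (_ : v ∈ univ) => h1 v
    rw [sum_add_distrib, ← card_filter] at h4
    rw [card_insert_of_notMem hl]
    refine le_trans h4 (le_trans (b := ∑ v, ((R.image (dir v)).card - 2) + (univ.filter P).card)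
      (le_of_eq (by congr)) ?_)
    omega

theorem fib_le (h : SCompat) {n : ℕ} (σ σ' : Shape n) (τ : Fin n ≃ Fin n)
    (f : Fin σ.r → Fin σ'.r) (hf : Ref σ σ' τ f) (v' : Fin σ'.r) :
    ∑ v ∈ univ.filter (fun v => f v = v'), kv σ v ≤ kv σ' v' := by
  classical
  have h1 : ∀ s : σ'.Sl v', ∃ l, σ'.dir v' (τ l) = s.1 := fun s => by
    obtain ⟨l, hl⟩ := σ'.exists_dir s.1
    exact ⟨τ.symm l, by rwa [s.2, ← τ.apply_symm_apply l] at hl⟩
  choose ρ hρ using h1
  have h2 := sum_le σ.dir (h n σ).1 (univ.image ρ)
  have h3 : (univ.image ρ).card ≤ Fintype.card (σ'.Sl v') := card_image_le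
  have h4 : ∀ v ∈ univ.filter (fun v => f v = v'),
      kv σ v ≤ ((univ.image ρ).image (σ.dir v)).card - 2 := fun v hv => by
    refine Nat.sub_le_sub_right ?_ 2
    refine card_le_card_of_injOn Subtype.val (fun s _ => ?_) Subtype.val_injective.injOn
    obtain ⟨l, hl⟩ := σ.exists_dir s.1
    rw [s.2] at hl
    refine mem_coe.2 (mem_image.2 ⟨ρ ⟨σ'.dir v' (τ l), σ'.base_dir _ _⟩,
      mem_image_of_mem _ (mem_univ _), Eq.trans (hf v _ _ ?_) hl⟩)
    rw [(mem_filter.1 hv).2, hρ]
  exact ((sum_le_sum h4).trans (sum_le_sum_of_subset (filter_subset _ _))).trans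
    (h2.trans (Nat.sub_le_sub_right h3 2))

end CountX

theorem sCount (h : SCompat) : SCount := by
  intro n σ σ' τ f hf v'
  have h1 := σ.sum_card_sub_two
  have h2 := σ'.sum_card_sub_two
  have h3 := sum_fiberwise univ f (kv σ)
  refine (sum_eq_sum_iff_of_le fun v _ => CountX.fib_le h σ σ' τ f hf v).1 ?_ v' (mem_univ _)
  rw [h3]
  unfold kv
  omega

end Pool.Agent.Adm.Dim
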