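import Pool.Agent.MP_0854a0_ag.Dim.St

namespace Pool.Agent.Adm.Dim

namespace EeX

lemma s_even (i : ℕ) : (Nat.digits 2 (2 * i)).sum = (Nat.digits 2 i).sum := by
  rcases Nat.eq_zero_or_pos i with rfl | h
  · rfl
  · rw [Nat.digits_def' (by norm_num) (by omega), List.sum_cons, Nat.mul_mod_right,
      Nat.mul_div_cancel_left _ (by norm_num), zero_add]

lemma s_odd (i : ℕ) : (Nat.digits 2 (2 * i + 1)).sum = (Nat.digits 2 i).sum + 1 := by
  rw [Nat.digits_def' (by norm_num) (by omega), List.sum_cons,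
    show (2 * i + 1) % 2 = 1 by omega, show (2 * i + 1) / 2 = i by omega, add_comm]

lemma ee_succ (k : ℕ) : ee (k + 1) = ee k + (Nat.digits 2 k).sum := Finset.sum_range_succ _ _

lemma ee_even (a : ℕ) : ee (2 * a) = 2 * ee a + a := by
  induction a with
  | zero => rfl
  | succ a ih =>
    rw [show 2 * (a + 1) = 2 * a + 1 + 1 by ring, ee_succ, ee_succ, ee_succ, ih, s_even, s_odd]
    ring

lemma ee_odd (a : ℕ) : ee (2 * a + 1) = ee a + ee (a + 1) + a := by
  rw [ee_succ, ee_succ, ee_even, s_even]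
  ring

lemma ee_add (n : ℕ) : ∀ a b, a + b = n → ee a + ee b + min a b ≤ ee (a + b) := by
  induction n using Nat.strong_induction_on with
  | _ n ih =>
    intro a b h
    have e0 : ee 0 = 0 := rfl
    rcases Nat.eq_zero_or_pos a with rfl | ha
    · simp [e0]
    rcases Nat.eq_zero_or_pos b with rfl | hb
    · simp [e0]
    obtain ⟨x, rfl | rfl⟩ := Nat.even_or_odd' a <;> obtain ⟨y, rfl | rfl⟩ := Nat.even_or_odd' b
    · have := ih _ (by omega) x y rfl
      rw [← mul_add, ee_even, ee_even, ee_even]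
      omega
    · have h1 := ih _ (by omega) x y rfl
      have h2 := ih _ (by omega) x (y + 1) rfl
      rw [show 2 * x + (2 * y + 1) = 2 * (x + y) + 1 by ring, ee_even, ee_odd, ee_odd]
      rw [← add_assoc] at h2
      omega
    · have h1 := ih _ (by omega) x y rfl
      have h2 := ih _ (by omega) (x + 1) y rfl
      rw [show 2 * x + 1 + 2 * y = 2 * (x + y) + 1 by ring, ee_even, ee_odd, ee_odd]
      rw [show x + 1 + y = x + y + 1 by ring] at h2
      omega
    · have h1 := ih _ (by omega) x (y + 1) rfl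
      have h2 := ih _ (by omega) (x + 1) y rfl
      rw [show 2 * x + 1 + (2 * y + 1) = 2 * (x + y + 1) by ring, ee_even, ee_odd, ee_odd]
      rw [show x + 1 + y = x + y + 1 by ring] at h2
      rw [← add_assoc] at h1
      omega

end EeX

theorem sEe : SEe := ⟨EeX.ee_even, EeX.ee_odd, fun a b => EeX.ee_add _ a b rfl⟩

end Pool.Agent.Adm.Dim
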