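import Pool.Agent.MP_0854a0_ag.Dim.St

/-! Embedding a tuple into an algebraically closed field of larger transcendence degree. -/

namespace Pool.Agent.Adm.Dim

namespace EmbX

theorem lift {R k k' : Type} [CommRing R] [IsDomain R] [Field k] [Field k'] [IsAlgClosed k']
    [Algebra R k] [Algebra R k'] (h : Function.Injective (algebraMap R k))
    (h' : Function.Injective (algebraMap R k')) :
    ∃ ψ : Subalgebra.algebraicClosure R k →ₐ[R] k', Function.Injective ψ := by
  have := (faithfulSMul_iff_algebraMap_injective R k').2 h'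
  have := (faithfulSMul_iff_algebraMap_injective R (Subalgebra.algebraicClosure R k)).2
    fun x y e => h (congrArg Subtype.val e)
  let ψ : Subalgebra.algebraicClosure R k →ₐ[R] k' := IsAlgClosed.lift
  refine ⟨ψ, (injective_iff_map_eq_zero ψ).2 fun x hx => by_contra fun h0 => ?_⟩
  refine Ideal.comap_ne_bot_of_algebraic_mem (I := RingHom.ker ψ) h0 hx
    (Algebra.IsAlgebraic.isAlgebraic (R := R) x) (eq_bot_iff.2 fun r hr => h' ?_)
  rw [map_zero, ← ψ.commutes]
  exact hr

end EmbX

theorem sEmb : SEmb := by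
  intro k k' σ _ _ _ _ θ θ' a e t ht hle
  classical
  obtain ⟨S, hS, eS⟩ := exists_td_TD θ a
  obtain ⟨g⟩ : Nonempty (S ↪ Fin e) := Function.Embedding.nonempty_of_card_le (by
    rw [Fintype.card_coe, Fintype.card_fin, ← eS]
    exact hle)
  let _ : Algebra K0 k := θ.toAlgebra
  let _ : Algebra (MvPolynomial S K0) k := (MvPolynomial.eval₂Hom θ fun i : S => a i).toAlgebra
  let _ : Algebra (MvPolynomial S K0) k' :=
    (MvPolynomial.eval₂Hom θ' fun i : S => t (g i)).toAlgebra
  obtain ⟨ψ, hψ⟩ := EmbX.lift (R := MvPolynomial S K0) (k := k) (k' := k')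
    ((injective_iff_map_eq_zero _).2 hS) ((injective_iff_map_eq_zero _).2 (ht.comp g g.injective))
  have hiff : ∀ T : Finset σ, AlgebraicIndepOn K0 a (T : Set σ) ↔ Indep θ fun i : T => a i :=
    fun T => algebraicIndependent_iff
  have halg : ∀ s, IsAlgebraic (MvPolynomial S K0) (a s) := fun s => by
    by_cases hs : s ∈ S
    · have h1 := isAlgebraic_algebraMap (A := k) (MvPolynomial.X ⟨s, hs⟩ : MvPolynomial S K0)
      rwa [RingHom.algebraMap_toAlgebra, MvPolynomial.eval₂Hom_X'] at h1
    · have h0 : IsAlgebraic (Algebra.adjoin K0 (a '' (S : Set σ))) (a s) := by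
        by_contra hn
        have h1 : AlgebraicIndepOn K0 a (insert s (S : Set σ)) :=
          (AlgebraicIndepOn.insert_iff (by simpa using hs)).2 ⟨(hiff S).2 hS, hn⟩
        rw [← Finset.coe_insert, hiff] at h1
        have h2 := le_td _ h1
        rw [Finset.card_insert_of_notMem hs] at h2
        omega
      rw [Set.image_eq_range] at h0
      exact h0.of_ringHom_of_comp_eq (AlgebraicIndependent.aevalEquiv ((hiff S).2 hS))
        (RingHom.id k) (AlgEquiv.surjective _) Function.injective_id rfl
  let F := Subalgebra.algebraicClosure (MvPolynomial S K0) k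
  let η : K0 →+* F := (algebraMap (MvPolynomial S K0) F).comp MvPolynomial.C
  let b : σ → F := fun s => ⟨a s, halg s⟩
  have h1 : ∀ f, MvPolynomial.eval₂ θ a f = F.val (MvPolynomial.eval₂ η b f) := fun f => by
    refine Eq.trans ?_ (MvPolynomial.eval₂_comp_left F.val.toRingHom η b f).symm
    congr 1
    exact RingHom.ext fun x => (MvPolynomial.eval₂Hom_C θ (fun i : S => a i) x).symm
  have h2 : ∀ f, MvPolynomial.eval₂ θ' (fun s => ψ (b s)) f = ψ (MvPolynomial.eval₂ η b f) :=
    fun f => by
      refine Eq.trans ?_ (MvPolynomial.eval₂_comp_left ψ.toRingHom η b f).symm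
      congr 1
      exact RingHom.ext fun x => ((ψ.commutes _).trans (MvPolynomial.eval₂Hom_C θ' _ x)).symm
  refine ⟨fun s => ψ (b s), fun f hf => ?_, fun f hf => ?_⟩
  · rw [h2, map_eq_zero_iff ψ hψ] at hf
    rw [h1, hf, map_zero]
  · rw [h1, map_eq_zero_iff F.val Subtype.val_injective] at hf
    rw [h2, hf, map_zero]

end Pool.Agent.Adm.Dim
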