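import Pool.Agent.MP_0854a0_ag.Dim.St

/-! The two bounds for the dimension from the potential and from the chains of blocks. -/

namespace Pool.Agent.Adm.Dim

namespace FinX

theorem upper (hP : SPhi) : SUpper := by
  intro n s
  obtain ⟨Φ, hΦ⟩ := hP
  have h : ∀ i, ∃ (σ : Shape n) (z : Pt σ),
      (s i : Set (PiBar 2 n)) = closure {clsStrict z.curve} := by
    intro i
    obtain ⟨x, hx⟩ := exists_generic (s i : Set (PiBar 2 n)) (s i).isIrreducible (s i).isClosed
    obtain ⟨X, rfl⟩ := cls_surjective x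
    obtain ⟨σ, z, hz, -⟩ := X.exists_pt'
    exact ⟨σ, z, hz ▸ hx⟩
  choose σ z hz using h
  have hle : ∀ i j, s i ≤ s j ↔ (z i).Le (z j) := by
    intro i j
    rw [← Pt.qle_iff, ← specializes_iff_Strict, specializes_iff_closure_subset, ← hz, ← hz]
    rfl
  have key : ∀ i : Fin (s.length + 1), n - 2 + i.1 ≤ Φ n (σ i) (z i) := by
    intro i
    induction i using Fin.induction with
    | zero => exact (hΦ n _ _).1
    | succ i ih =>
      have := (hΦ n _ (z i.castSucc)).2.2 _ (z i.succ) ((hle _ _).1 (s.step i).le)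
        fun h => (s.step i).not_ge ((hle _ _).2 h)
      simp only [Fin.val_castSucc, Fin.val_succ] at ih ⊢
      omega
  have h1 := key (Fin.last _)
  have h2 := (hΦ n _ (z (Fin.last _))).2.1
  simp only [Fin.val_last] at h1
  omega

theorem lower (hL : SLex) (hC : SChain) (hR : SReal) : SLower := by
  intro n hn
  obtain ⟨c, hc, hlt⟩ := hC (n - 2) (by omega)
  have h : ∀ i, ∃ (σ : Shape n) (z : Pt σ), σ.r = (c i).length ∧ ∑ v, tv z v = tL (c i) ∧
      ∀ (G : Type) [Group G] [Finite G], z.Q G ↔ ∃ g0 g1 : G, CQ (c i) g0 g1 ⊤ := fun i =>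
    hR n (c i) (hc i).1 (by rw [(hc i).2]; omega)
  choose σ z h1 h2 h3 using h
  refine le_krullDim_of_chain (r := ee (n - 2)) (fun i => (z i.1).curve) (fun i => ?_)
    fun i h => ?_
  · refine (Pt.qle_iff (z i.1) (z (i.1 + 1))).2 fun G _ _ hG => ?_
    obtain ⟨g0, g1, hq⟩ := (h3 _ G).1 hG
    exact (h3 _ G).2 ⟨g0, g1, (hlt i.1 i.2).1 G g0 g1 ⊤ hq⟩
  · obtain ⟨a, b⟩ := hL n _ _ _ _ ((Pt.qle_iff (z (i.1 + 1)) (z i.1)).1 h)
    rw [h2, h2, h1, h1] at b
    rw [h1, h1] at a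
    rcases (hlt i.1 i.2).2 with h4 | ⟨h4, h5⟩
    · omega
    · have := b h4.symm
      omega

end FinX

theorem sFin (hP : SPhi) (hL : SLex) (hC : SChain) (hR : SReal) : SLower ∧ SUpper :=
  ⟨FinX.lower hL hC hR, FinX.upper hP⟩

end Pool.Agent.Adm.Dim
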