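import Pool.Agent.MP_0854a0_ag.Dim.St

/-! Shapes with the same partitions of the marks are isomorphic. -/

namespace Pool.Agent.Adm.Dim

open Sum

namespace IsoX

variable {n : ℕ} {σ σ' : Shape n} {τ : Fin n ≃ Fin n} {f : Fin σ.r ≃ Fin σ'.r}

theorem exists_equiv
    (H : ∀ v l l', σ.dir v l = σ.dir v l' ↔ σ'.dir (f v) (τ l) = σ'.dir (f v) (τ l')) :
    ∃ g : σ.Slot ≃ σ'.Slot, ∀ v l, g (σ.dir v l) = σ'.dir (f v) (τ l) := by
  choose m hm using σ.exists_dir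
  have key : ∀ v l, σ'.dir (f (σ.base (σ.dir v l))) (τ (m (σ.dir v l))) = σ'.dir (f v) (τ l) := by
    intro v l
    have := hm (σ.dir v l)
    rw [σ.base_dir] at this ⊢
    exact (H v _ _).1 this
  refine ⟨Equiv.ofBijective (fun s => σ'.dir (f (σ.base s)) (τ (m s))) ⟨?_, ?_⟩, key⟩
  · intro s t e
    have e1 : σ.base s = σ.base t := f.injective (by
      have := congrArg σ'.base e
      simpa only [Shape.base_dir] using this)
    have e2 : σ'.dir (f (σ.base t)) (τ (m s)) = σ'.dir (f (σ.base t)) (τ (m t)) := by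
      have e' : σ'.dir (f (σ.base s)) (τ (m s)) = σ'.dir (f (σ.base t)) (τ (m t)) := e
      rwa [e1] at e'
    rw [← hm s, ← hm t, e1]
    exact (H _ _ _).2 e2
  · intro s
    obtain ⟨l, hl⟩ := σ'.exists_dir s
    refine ⟨σ.dir (f.symm (σ'.base s)) (τ.symm l), (key _ _).trans ?_⟩
    rw [f.apply_symm_apply, τ.apply_symm_apply, hl]

end IsoX

theorem sIso (h : SCompat) : SIso := by
  intro n σ σ' τ f h1 h2
  obtain ⟨g, hg⟩ := IsoX.exists_equiv (f := f) fun v l l' => ⟨h2 v l l', h1 v l l'⟩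
  refine ⟨g, hg, fun δ => ?_⟩
  obtain ⟨l, l', hne, a1, a2⟩ := σ.exists_two δ
  have b1 : σ'.dir (f δ.fst) (τ l) = g (inl δ) := by rw [← hg, a1]
  have b2 : σ'.dir (f δ.fst) (τ l') = g (inl δ) := by rw [← hg, a2]
  rcases e : g (inl δ) with δ' | k
  · refine ⟨δ', rfl, ?_⟩
    have c1 : δ'.fst = f δ.fst := ((σ'.dir_eq_inl_iff _ _ _).1 (b1.trans e)).1
    obtain ⟨l0, h0⟩ := σ.exists_dir (inl δ.symm)
    change σ.dir δ.snd l0 = inl δ.symm at h0
    have c2 : ∀ k, σ.dir δ.snd k = inl δ.symm ↔ σ'.dir δ'.snd (τ k) = inl δ'.symm := fun k => by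
      rw [σ.dir_symm_iff, σ'.dir_symm_iff, c1, ← hg, ← e, g.injective.ne_iff]
    have c3 : f δ.snd = δ'.snd := (h n σ').2.2 _ _ (τ l0) fun k => by
      obtain ⟨k, rfl⟩ := τ.surjective k
      rw [(c2 l0).1 h0, ← c2, ← hg, ← hg, g.injective.eq_iff, h0]
    rw [← h0, hg, c3, (c2 l0).1 h0]
  · rw [e] at b1 b2
    exact absurd (τ.injective (((σ'.dir_eq_inr_iff _ _ _).1 b1).2.trans
      ((σ'.dir_eq_inr_iff _ _ _).1 b2).2.symm)) hne

end Pool.Agent.Adm.Dim
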