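import Pool.Agent.MP_0854a0_ag.Dim.St

namespace Pool.Agent.Adm.Dim

theorem sLex (hT : STd) (hC : SCount) (hR : SRel) : SLex := by
  intro n σ σ' z z' h
  obtain ⟨τ, θ, hr⟩ := h.exists_rel
  obtain ⟨f, hf, h1, -⟩ := hR n σ σ' z (z'.tw θ) τ hr
  have hs : Function.Surjective f := by
    intro v'
    by_contra hn
    have h2 := hC n σ σ' τ f hf v'
    rw [Finset.filter_eq_empty_iff.2 (fun v _ e => hn ⟨v, e⟩), Finset.sum_empty] at h2
    have h3 := σ'.three_le_card v'
    unfold kv at h2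
    omega
  refine ⟨by simpa using Fintype.card_le_of_surjective f hs, fun e => ?_⟩
  have hb : Function.Bijective f :=
    (Fintype.bijective_iff_surjective_and_card f).2 ⟨hs, by simp [e]⟩
  rw [← Equiv.sum_comp (Equiv.ofBijective f hb) (tv z')]
  exact Finset.sum_le_sum fun v _ => (h1 v).trans (hT.2.1 _ _ _ _ _).le

end Pool.Agent.Adm.Dim
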