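import Pool.Agent.MP_0854a0_ag.Dim.St

/-! The number of moduli of a family of points. -/

namespace Pool.Agent.Adm.Dim

namespace MdX

variable {k : Type} [Field k]

theorem cr_mob {ι : Type} (p q D : ι → k) (κ : k) (hκ : κ ≠ 0) (hD : ∀ s, D s ≠ 0)
    (h : ∀ s s', q s - q s' = κ * (p s - p s') / (D s * D s')) (a b c d : ι) :
    cr (q a) (q b) (q c) (q d) = cr (p a) (p b) (p c) (p d) := by
  have ha := hD a
  have hb := hD b
  have hc := hD c
  have hd := hD d
  have hu : κ * κ / (D a * D b * D c * D d) ≠ 0 :=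
    div_ne_zero (mul_ne_zero hκ hκ) (mul_ne_zero (mul_ne_zero (mul_ne_zero ha hb) hc) hd)
  have e1 : (q d - q a) * (q b - q c) =
      (p d - p a) * (p b - p c) * (κ * κ / (D a * D b * D c * D d)) := by
    rw [h, h]; field_simp
  have e2 : (q d - q c) * (q b - q a) =
      (p d - p c) * (p b - p a) * (κ * κ / (D a * D b * D c * D d)) := by
    rw [h, h]; field_simp
  unfold cr
  rw [e1, e2, mul_div_mul_right _ _ hu]

theorem cr_mem (F : Subfield k) {a b c d : k} (ha : a ∈ F) (hb : b ∈ F) (hc : c ∈ F)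
    (hd : d ∈ F) : cr a b c d ∈ F :=
  F.div_mem (F.mul_mem (F.sub_mem hd ha) (F.sub_mem hb hc))
    (F.mul_mem (F.sub_mem hd hc) (F.sub_mem hb ha))

theorem crAll_mem {ι : Type} [Finite ι] (θ : K0 →+* k) (F : Subfield k) (hθ : ∀ x, θ x ∈ F)
    {p : ι → k} (hp : Function.Injective p) {s0 s1 s2 : ι} (h01 : s0 ≠ s1) (h02 : s0 ≠ s2)
    (h12 : s1 ≠ s2) (hc : ∀ s, cr (p s0) (p s1) (p s2) (p s) ∈ F) (x : ι × ι × ι × ι) :
    crAll p x ∈ F := by
  obtain ⟨lam, hlam⟩ := ((Set.finite_range fun s => cr (p s0) (p s1) (p s2) (p s)).preimage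
    θ.injective.injOn).exists_notMem
  have hl : ∀ s, cr (p s0) (p s1) (p s2) (p s) - θ lam ≠ 0 := fun s e =>
    hlam ⟨s, sub_eq_zero.1 e⟩
  have n12 : p s1 - p s2 ≠ 0 := sub_ne_zero.2 (hp.ne h12)
  have n10 : p s1 - p s0 ≠ 0 := sub_ne_zero.2 (hp.ne h01.symm)
  have n20 : p s2 - p s0 ≠ 0 := sub_ne_zero.2 (hp.ne h02.symm)
  set D : ι → k := fun s => (p s - p s0) * (p s1 - p s2) - θ lam * ((p s - p s2) * (p s1 - p s0))
    with hDdef
  have hE : ∀ s, s ≠ s2 → cr (p s0) (p s1) (p s2) (p s) - θ lam =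
      D s / ((p s - p s2) * (p s1 - p s0)) := fun s hs => by
    have := sub_ne_zero.2 (hp.ne hs)
    simp only [hDdef, cr]
    field_simp
  have hD : ∀ s, D s ≠ 0 := fun s => by
    by_cases hs : s = s2
    · simp only [hDdef, hs, sub_self, zero_mul, mul_zero, sub_zero]
      exact mul_ne_zero n20 n12
    · intro e
      apply hl s
      rw [hE s hs, e, zero_div]
  have hq : ∀ s, (p s - p s2) * (p s1 - p s0) / D s ∈ F := fun s => by
    by_cases hs : s = s2
    · rw [hs, sub_self, zero_mul, zero_div]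
      exact F.zero_mem
    · rw [← inv_div, ← hE s hs]
      exact F.inv_mem (F.sub_mem (hc s) (hθ lam))
  have key := cr_mob p (fun s => (p s - p s2) * (p s1 - p s0) / D s) D
    ((p s1 - p s2) * (p s1 - p s0) * (p s2 - p s0)) (mul_ne_zero (mul_ne_zero n12 n10) n20) hD
    (fun s s' => by
      rw [div_sub_div _ _ (hD s) (hD s')]
      congr 1
      simp only [hDdef]
      ring)
  unfold crAll
  rw [← key]
  exact cr_mem F (hq _) (hq _) (hq _) (hq _)

theorem part1 (h : STd) (k ι κ : Type) [Field k] [Fintype ι] [Fintype κ] (θ : K0 →+* k)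
    (p : ι → k) (s0 s1 s2 : ι) (g : κ → ι) (hp : Function.Injective p) (h01 : s0 ≠ s1)
    (h02 : s0 ≠ s2) (h12 : s1 ≠ s2) (hg : Function.Surjective g) :
    md θ p = td θ fun l => cr (p s0) (p s1) (p s2) (p (g l)) := by
  refine le_antisymm (h.1 k _ _ θ _ _ fun x => ?_) (h.1 k _ _ θ _ _ fun l => ?_)
  · refine crAll_mem θ _ (fun x => Subfield.subset_closure (Or.inl ⟨x, rfl⟩)) hp h01 h02 h12
      (fun s => ?_) x
    obtain ⟨l, rfl⟩ := hg s
    exact Subfield.subset_closure (Or.inr ⟨l, rfl⟩)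
  · exact Subfield.subset_closure (Or.inr ⟨(s0, s1, s2, g l), rfl⟩)

theorem map_cr {k' : Type} [Field k'] (ψ : k →+* k') (a b c d : k) :
    cr (ψ a) (ψ b) (ψ c) (ψ d) = ψ (cr a b c d) := by
  simp only [cr, map_div₀, map_mul, map_sub]

end MdX

theorem sMd (h : STd) : SMd := by
  refine ⟨MdX.part1 h, fun k ι _ _ θ p hp h3 => ?_, fun k k' ι ι' _ _ _ _ θ ψ p g => ?_⟩
  · classical
    obtain ⟨s0, s1, s2, h01, h02, h12⟩ := Fintype.two_lt_card_iff.1 h3
    rw [MdX.part1 h k ι ι θ p s0 s1 s2 id hp h01 h02 h12 Function.surjective_id]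
    refine Nat.add_le_of_le_sub h3 (td_le _ fun S hS => ?_)
    have hsub : S ⊆ Finset.univ \ {s0, s1, s2} := by
      intro s hs
      have h1 := hS.notMem_range ⟨s, hs⟩
      simp only [Finset.mem_sdiff, Finset.mem_univ, true_and, Finset.mem_insert,
        Finset.mem_singleton]
      rintro (rfl | rfl | rfl)
      · exact h1 ⟨0, by simp [cr]⟩
      · refine h1 ⟨1, ?_⟩
        have n12 : p s - p s2 ≠ 0 := sub_ne_zero.2 (hp.ne h12)
        have n10 : p s - p s0 ≠ 0 := sub_ne_zero.2 (hp.ne h01.symm)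
        simp only [map_one, cr, id]
        field_simp
      · exact h1 ⟨0, by simp [cr]⟩
    have h4 := Finset.card_le_card hsub
    rwa [Finset.card_univ_sdiff, Finset.card_eq_three.2 ⟨s0, s1, s2, h01, h02, h12, rfl⟩] at h4
  · have e : crAll (fun s => ψ (p (g s))) = fun x => ψ (crAll (fun s => p (g s)) x) :=
      funext fun x => MdX.map_cr ψ _ _ _ _
    unfold md
    rw [e, h.2.2]
    refine le_antisymm (h.1 k _ _ θ _ _ fun x => ?_) (h.1 k _ _ θ _ _ fun x => ?_)
    · exact Subfield.subset_closure (Or.inr ⟨(g x.1, g x.2.1, g x.2.2.1, g x.2.2.2), rfl⟩)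
    · refine Subfield.subset_closure
        (Or.inr ⟨(g.symm x.1, g.symm x.2.1, g.symm x.2.2.1, g.symm x.2.2.2), ?_⟩)
      simp only [crAll, Equiv.apply_symm_apply]

end Pool.Agent.Adm.Dim
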