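import Pool.Agent.MP_0854a0_ag.Dim.St

/-! Merging two blocks. -/

namespace Pool.Agent.Adm.Dim

open Sum

namespace MergeX

theorem cr_inj {k : Type} [Field k] {a b c x y : k} (hac : a ≠ c) (hba : b ≠ a) (hbc : b ≠ c)
    (hx : x ≠ c) (hy : y ≠ c) (e : cr a b c x = cr a b c y) : x = y := by
  have h1 := sub_ne_zero.2 hba
  rw [cr, cr, div_eq_div_iff (mul_ne_zero (sub_ne_zero.2 hx) h1)
    (mul_ne_zero (sub_ne_zero.2 hy) h1)] at e
  have e3 : (b - c) * (b - a) * (a - c) * (x - y) = 0 := by linear_combination e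
  exact sub_eq_zero.1 ((mul_eq_zero.1 e3).resolve_left
    (mul_ne_zero (mul_ne_zero (sub_ne_zero.2 hbc) h1) (sub_ne_zero.2 hac)))

/-- A block with few moduli can be moved to a given field. -/
theorem move (hM : SMd) (hE : SEmb) (B : Blk) {k : Type} [Field k] [IsAlgClosed k]
    (θ : K0 →+* k) {e : ℕ} (t : Fin e → k) (ht : Indep θ t) (hB : B.t ≤ e) :
    ∃ p : Bool ⊕ B.ι → k, Function.Injective p ∧
      ∀ (G : Type) [Group G] [Finite G] (d : Bool ⊕ B.ι → G) (R : Subgroup G),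
        VC B.θ B.p d R → VC θ p d R := by
  obtain ⟨i0⟩ := B.ne
  have h01 : (inl false : Bool ⊕ B.ι) ≠ inr i0 := inl_ne_inr
  have h02 : (inl false : Bool ⊕ B.ι) ≠ inl true := by simp
  have h12 : (inr i0 : Bool ⊕ B.ι) ≠ inl true := inr_ne_inl
  have e1 := hM.1 B.k _ _ B.θ B.p _ _ _ id B.inj h01 h02 h12 Function.surjective_id
  obtain ⟨c, k1, k2⟩ := hE B.k k _ B.θ θ
    (fun l => cr (B.p (inl false)) (B.p (inr i0)) (B.p (inl true)) (B.p l)) e t ht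
    (le_of_eq_of_le e1.symm hB)
  have c0 : c (inl false) = 0 := (k2.eq_const (x := 0) (by
    rw [cr, sub_self, zero_mul, zero_div, map_zero])).trans (map_zero θ)
  have c1 : c (inr i0) = 1 := (k2.eq_const (x := 1) (by
    rw [cr, map_one, mul_comm]
    exact div_self (mul_ne_zero (sub_ne_zero.2 (B.inj.ne h12))
      (sub_ne_zero.2 (B.inj.ne h01.symm))))).trans (map_one θ)
  have c2 : c (inl true) = 0 := (k2.eq_const (x := 0) (by
    rw [cr, sub_self (B.p (inl true)), zero_mul, div_zero, map_zero])).trans (map_zero θ)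
  obtain ⟨p, hp, hc⟩ := exists_cr_eq c c0 c1 c2 h02 fun s s' hs hs' h =>
    B.inj (cr_inj (B.inj.ne h02) (B.inj.ne h01.symm) (B.inj.ne h12) (B.inj.ne hs) (B.inj.ne hs')
      (k1.eq_of_eq h))
  refine ⟨p, hp, fun G _ _ d R h => VC.gen_cr B.inj hp h01 h02 h12 ?_ h⟩
  rw [funext hc]
  exact k1

end MergeX

theorem sMerge (hM : SMd) (h2 : STd2) (hE : SEmb) (hS : SSmooth) : SMerge := by
  refine ⟨fun B1 B2 e h1 h1' => ?_, fun m hm => ?_⟩
  · obtain ⟨k, _, _, θ, t, ht, hk⟩ := exists_field_td e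
    obtain ⟨p1, i1, m1⟩ := MergeX.move hM hE B1 θ t ht h1
    obtain ⟨p2, i2, m2⟩ := MergeX.move hM hE B2 θ t ht h1'
    obtain ⟨C, _, _, φ, s, P, hP, hc, hV⟩ := hS k B1.ι B2.ι θ p1 p2 i1 i2
    refine ⟨{ k := C, θ := φ.comp θ, ι := B1.ι ⊕ B2.ι, p := P, inj := hP }, Fintype.card_sum,
      h2 k C _ θ φ s _ e hk fun x => ?_, ?_⟩
    · exact div_mem (mul_mem (sub_mem (hc _) (hc _)) (sub_mem (hc _) (hc _)))
        (mul_mem (sub_mem (hc _) (hc _)) (sub_mem (hc _) (hc _)))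
    · rintro G _ _ g0 g g1 R1 R2 ⟨d1, v1⟩ ⟨d2, v2⟩
      exact ⟨Sum.elim d1 d2, hV G g0 g g1 d1 d2 R1 R2 (m1 G _ _ v1) (m2 G _ _ v2)⟩
  · have : Nonempty (Fin m) := ⟨⟨0, hm⟩⟩
    obtain ⟨f, hf⟩ := Countable.exists_injective_nat (Bool ⊕ Fin m)
    refine ⟨Blk.mk K0 (RingHom.id K0) (Fin m) (fun x => Infinite.natEmbedding K0 (f x))
      ((Infinite.natEmbedding K0).injective.comp hf), Fintype.card_fin m,
      Nat.le_zero.1 (td_le 0 fun S hS => ?_)⟩
    rw [Nat.le_zero, Finset.card_eq_zero]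
    by_contra h
    obtain ⟨x, hx⟩ := Finset.nonempty_iff_ne_empty.2 h
    exact hS.notMem_range ⟨x, hx⟩ ⟨_, rfl⟩

end Pool.Agent.Adm.Dim
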