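import Pool.Agent.MP_0854a0_ag.Dim.St

namespace Pool.Agent.Adm.Dim

open Sum SimpleGraph

namespace PathX

theorem keep {r : ℕ} (a : ℕ) {G : SimpleGraph (Fin r)}
    (h : ∀ x y, G.Adj x y → (x.1 ≤ a ↔ y.1 ≤ a)) {x y : Fin r} (hr : G.Reachable x y) :
    x.1 ≤ a ↔ y.1 ≤ a := by
  obtain ⟨p⟩ := hr
  induction p with
  | nil => rfl
  | cons h' _ ih => exact (h _ _ h').trans ih

theorem tree (m : ℕ) : (pathGraph (m + 1)).IsTree := by
  refine ⟨pathGraph_connected m, isAcyclic_iff_forall_adj_isBridge.2 fun v w hvw => ?_⟩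
  rw [isBridge_iff]
  intro hr
  rw [pathGraph_adj] at hvw
  have := keep (min v.1 w.1) (fun x y hxy => ?_) hr
  · omega
  · rw [deleteEdges_adj, pathGraph_adj, Set.mem_singleton_iff, Sym2.eq_iff] at hxy
    simp only [Fin.ext_iff] at hxy
    omega

variable {m : ℕ} {ι : Fin (m + 1) → Type}

/-- the ends and the marks -/
def mark : Bool ⊕ (Σ v, ι v) → Σ v, Bool ⊕ ι v
  | inl false => ⟨0, inl false⟩
  | inl true => ⟨Fin.last m, inl true⟩
  | inr x => ⟨x.1, inr x.2⟩

/-- the position of a special point -/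
def pos : (pathGraph (m + 1)).Dart ⊕ (Bool ⊕ (Σ v, ι v)) → Σ v, Bool ⊕ ι v :=
  Sum.elim (fun δ => ⟨δ.fst, inl (decide (δ.fst < δ.snd))⟩) mark

/-- the special point at a position -/
def slot : (Σ v, Bool ⊕ ι v) → (pathGraph (m + 1)).Dart ⊕ (Bool ⊕ (Σ v, ι v))
  | ⟨v, inl false⟩ => if h : 0 < v.1 then
      inl ⟨(v, ⟨v.1 - 1, by omega⟩), pathGraph_adj.2 (Or.inr (Nat.sub_add_cancel h))⟩
    else inr (inl false)
  | ⟨v, inl true⟩ => if h : v.1 < m then
      inl ⟨(v, ⟨v.1 + 1, by omega⟩), pathGraph_adj.2 (Or.inl rfl)⟩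
    else inr (inl true)
  | ⟨v, inr i⟩ => inr (inr ⟨v, i⟩)

theorem pos_slot (x : Σ v, Bool ⊕ ι v) : pos (slot x) = x := by
  obtain ⟨v, (_ | _) | i⟩ := x
  · by_cases h : 0 < v.1
    · simp only [slot, dif_pos h, pos, Sum.elim_inl]
      rw [decide_eq_false (by simp [Fin.lt_def])]
    · obtain rfl : v = 0 := Fin.ext (by simpa using h)
      rfl
  · by_cases h : v.1 < m
    · simp only [slot, dif_pos h, pos, Sum.elim_inl]
      rw [decide_eq_true (by simp [Fin.lt_def])]
    · obtain rfl : v = Fin.last m := Fin.ext (by have := v.2; simp; omega)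
      simp only [slot, dif_neg h]
      rfl
  · rfl

theorem slot_pos (s : (pathGraph (m + 1)).Dart ⊕ (Bool ⊕ (Σ v, ι v))) : slot (pos s) = s := by
  obtain ⟨⟨v, w⟩, h⟩ | (_ | _) | x := s
  · have h2 := w.2
    rcases pathGraph_adj.1 h with h1 | h1
    · dsimp only at h1
      simp only [pos, Sum.elim_inl]
      rw [decide_eq_true (by rw [Fin.lt_def]; omega)]
      simp only [slot]
      rw [dif_pos (by omega)]
      exact congrArg inl (Dart.ext _ _ (Prod.ext rfl (Fin.ext h1)))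
    · dsimp only at h1
      simp only [pos, Sum.elim_inl]
      rw [decide_eq_false (by rw [Fin.lt_def]; omega)]
      simp only [slot]
      rw [dif_pos (by omega)]
      exact congrArg inl (Dart.ext _ _ (Prod.ext rfl (Fin.ext (by simp only; omega))))
  · rfl
  · simp [pos, mark, slot]
  · rfl

/-- positions and special points -/
def eqv {n : ℕ} (e : Bool ⊕ (Σ v, ι v) ≃ Fin n) :
    (Σ v, Bool ⊕ ι v) ≃ (pathGraph (m + 1)).Dart ⊕ Fin n :=
  (⟨slot, pos, pos_slot, slot_pos⟩ : _ ≃ _).trans (Equiv.sumCongr (Equiv.refl _) e)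

theorem base_eqv {n : ℕ} (e : Bool ⊕ (Σ v, ι v) ≃ Fin n) (x : Σ v, Bool ⊕ ι v) :
    slotBase (pathGraph (m + 1)) (fun l => (mark (e.symm l)).1) (eqv e x) = x.1 := by
  obtain ⟨s, rfl⟩ := (eqv e).symm.surjective x
  rw [Equiv.apply_symm_apply]
  rcases s with δ | l <;> rfl

theorem inl_eq {n : ℕ} (e : Bool ⊕ (Σ v, ι v) ≃ Fin n) (δ : (pathGraph (m + 1)).Dart) (b : Bool)
    (h : decide (δ.fst < δ.snd) = b) : inl δ = eqv e ⟨δ.fst, inl b⟩ := by
  rw [← Equiv.symm_apply_eq, ← h]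
  rfl

end PathX

open PathX in
theorem sPath : SPath := by
  intro n r ι _ _ hr hn
  obtain ⟨m, rfl⟩ : ∃ m, r = m + 1 := ⟨r - 1, by omega⟩
  have e : Bool ⊕ (Σ v, ι v) ≃ Fin n := Fintype.equivOfCardEq (by
    rw [Fintype.card_sum, Fintype.card_bool, Fintype.card_sigma, Fintype.card_fin, ← hn, add_comm])
  refine ⟨pathGraph (m + 1), tree m, fun l => (mark (e.symm l)).1, fun v => ?_, eqv e,
    base_eqv e, fun δ => ?_, fun v w h => ?_⟩
  · obtain ⟨i⟩ := (inferInstance : Nonempty (ι v))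
    let f : Bool ⊕ Unit → {s // slotBase (pathGraph (m + 1))
        (fun l => (mark (e.symm l)).1) s = v} :=
      fun c => ⟨eqv e ⟨v, Sum.map id (fun _ => i) c⟩, base_eqv e _⟩
    have hf : Function.Injective f := fun c c' h => by
      have h1 := (eqv e).injective (congrArg Subtype.val h)
      exact Sum.map_injective.2 ⟨Function.injective_id, fun _ _ _ => rfl⟩
        (eq_of_heq (Sigma.mk.inj_iff.1 h1).2)
    have : Finite ((pathGraph (m + 1)).Dart ⊕ Fin n) := Finite.of_equiv _ (eqv e)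
    simpa using Nat.card_le_card_of_injective f hf
  · rcases pathGraph_adj.1 δ.adj with h | h
    · exact ⟨δ.fst, δ.snd, h, Or.inl ⟨inl_eq e δ true (decide_eq_true (by rw [Fin.lt_def]; omega)),
        inl_eq e δ.symm false (decide_eq_false (by
          change ¬ δ.snd < δ.fst
          rw [Fin.lt_def]; omega))⟩⟩
    · exact ⟨δ.snd, δ.fst, h, Or.inr ⟨inl_eq e δ.symm true (decide_eq_true (by
          change δ.snd < δ.fst
          rw [Fin.lt_def]; omega)),
        inl_eq e δ false (decide_eq_false (by rw [Fin.lt_def]; omega))⟩⟩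
  · exact ⟨⟨(v, w), pathGraph_adj.2 (Or.inl h)⟩,
      inl_eq e ⟨(v, w), pathGraph_adj.2 (Or.inl h)⟩ true (decide_eq_true (by
        change v < w
        rw [Fin.lt_def]; omega)),
      inl_eq e ⟨(w, v), pathGraph_adj.2 (Or.inr h)⟩ false (decide_eq_false (by
        change ¬ w < v
        rw [Fin.lt_def]; omega))⟩

end Pool.Agent.Adm.Dim
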