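import Pool.Agent.MP_0854a0_ag.Dim.St

/-! The strictly monotone potential on stable curves. -/

namespace Pool.Agent.Adm.Dim

open Finset

namespace PhiX

theorem comb {V V' : Type} [Fintype V] [Fintype V'] [DecidableEq V'] {U : ℕ → ℕ → ℕ}
    (hU : IsPot U) (k t : V → ℕ) (k' t' : V' → ℕ) (f : V → V') (h1 : ∀ v, t v + 1 ≤ k v)
    (h2 : ∀ v', 1 ≤ k' v') (hc : ∀ v', ∑ v ∈ univ.filter (fun v => f v = v'), k v = k' v')
    (hm : ∀ v, t v ≤ t' (f v)) (he : ∀ v, t' (f v) ≤ t v → k' (f v) ≤ k v) :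
    ∑ v, U (k v) (t v) < ∑ v', U (k' v') (t' v') ∨
      (Function.Bijective f ∧ ∀ v, t' (f v) ≤ t v) := by
  classical
  have key : ∀ v', ∑ v ∈ univ.filter (fun v => f v = v'), U (k v) (t v) < U (k' v') (t' v') ∨
      (∑ v ∈ univ.filter (fun v => f v = v'), U (k v) (t v) = U (k' v') (t' v') ∧
        ∃ v0, univ.filter (fun v => f v = v') = {v0} ∧ t' v' ≤ t v0) := fun v' => by
    by_cases h : ∀ v, f v = v' → t v < t' v'
    · refine Or.inl (hU.2 V _ k t _ _ ?_ (fun v hv => ⟨h1 v, h v (mem_filter.1 hv).2⟩) (hc v').le)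
      refine nonempty_iff_ne_empty.2 fun e => ?_
      have a := hc v'
      have b := h2 v'
      rw [e, sum_empty] at a
      omega
    · push Not at h
      obtain ⟨v0, rfl, h⟩ := h
      have m : v0 ∈ univ.filter (fun v => f v = f v0) := mem_filter.2 ⟨mem_univ _, rfl⟩
      have a := hc (f v0)
      have b := he v0 h
      have e : univ.filter (fun v => f v = f v0) = {v0} := by
        refine eq_singleton_iff_unique_mem.2 ⟨m, fun v hv => ?_⟩
        by_contra hne
        have c := add_le_sum (f := k) (fun _ _ => Nat.zero_le _) hv m hne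
        have := h1 v
        omega
      rw [e, sum_singleton] at a
      exact Or.inr ⟨by rw [e, sum_singleton, a, le_antisymm (hm v0) h], v0, e, h⟩
  by_cases h : ∃ v', ∑ v ∈ univ.filter (fun v => f v = v'), U (k v) (t v) < U (k' v') (t' v')
  · obtain ⟨v', h⟩ := h
    rw [← sum_fiberwise univ f]
    exact Or.inl (sum_lt_sum (fun w _ => (key w).elim le_of_lt fun a => a.1.le) ⟨v', mem_univ _, h⟩)
  · choose g g1 g2 using fun v' => ((key v').resolve_left fun a => h ⟨v', a⟩).2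
    have g3 : ∀ v v', f v = v' ↔ v = g v' := fun v v' => by
      rw [← mem_singleton (a := g v'), ← g1, mem_filter]
      simp
    refine Or.inr ⟨⟨fun v w e => ((g3 v _).1 e).trans ((g3 w _).1 rfl).symm,
      fun v' => ⟨g v', (g3 _ _).2 rfl⟩⟩, fun v => ?_⟩
    have := g2 (f v)
    rwa [← (g3 v _).1 rfl] at this

theorem card_le {n : ℕ} {σ σ' : Shape n} {τ : Fin n ≃ Fin n} {v : Fin σ.r} {v' : Fin σ'.r}
    (h : ∀ l l', σ.dir v l = σ.dir v l' → σ'.dir v' (τ l) = σ'.dir v' (τ l')) :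
    kv σ' v' ≤ kv σ v := by
  choose m hm using fun s : σ'.Sl v' => σ'.exists_dir s.1
  refine Nat.sub_le_sub_right (Fintype.card_le_of_injective
    (fun s => (⟨σ.dir v (τ.symm (m s)), σ.base_dir _ _⟩ : σ.Sl v)) fun s s' e => ?_) 2
  have a := h _ _ (congrArg Subtype.val e)
  have b := hm s
  have c := hm s'
  rw [s.2] at b
  rw [s'.2] at c
  rw [τ.apply_symm_apply, τ.apply_symm_apply, b, c] at a
  exact Subtype.ext a

theorem tv_lt (hM : SMd) {n : ℕ} {σ : Shape n} (z : Pt σ) (v : Fin σ.r) : tv z v + 1 ≤ kv σ v := by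
  have a := hM.2.1 z.k (σ.Sl v) z.θ (fun s => z.x s)
    (fun s s' e => Subtype.ext (z.inj _ _ (s.2.trans s'.2.symm) e)) (σ.three_le_card v)
  unfold tv kv
  omega

theorem ee_sum (hE : SEe) {V : Type} (s : Finset V) (k : V → ℕ) :
    ∑ v ∈ s, ee (k v) ≤ ee (∑ v ∈ s, k v) := by
  classical
  induction s using Finset.induction_on with
  | empty => simp
  | insert a s ha ih =>
    rw [sum_insert ha, sum_insert ha]
    have := hE.2.2 (k a) (∑ v ∈ s, k v)
    omega

end PhiX

open PhiX in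
theorem sPhi (hE : SEe) (hP : SPot) (hT : STd) (hM : SMd) (hC : SCount) (hR : SRel)
    (hB : SBack) : SPhi := by
  obtain ⟨U, hU⟩ := hP
  refine ⟨fun n σ z => ∑ v, U (kv σ v) (tv z v), fun n σ z => ?_⟩
  have hs : ∑ v, kv σ v = n - 2 := by
    have := σ.sum_card_sub_two
    unfold kv
    omega
  refine ⟨hs ▸ sum_le_sum fun v _ => (hU.1 _ _ (tv_lt hM z v)).1, ?_, fun σ' z' h h' => ?_⟩
  · refine (sum_le_sum fun v _ => (hU.1 _ _ (tv_lt hM z v)).2).trans ?_
    rw [sum_add_distrib, ← hs]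
    exact Nat.add_le_add_left (ee_sum hE _ _) _
  · obtain ⟨τ, θ, hr⟩ := h.exists_rel
    obtain ⟨f, f1, f2, f3⟩ := hR n σ σ' z (z'.tw θ) τ hr
    have e : ∀ v, tv (z'.tw θ) v = tv z' v := fun v => hT.2.1 z'.k _ θ z'.θ _
    rcases comb hU (kv σ) (tv z) (kv σ') (tv (z'.tw θ)) f (tv_lt hM z)
      (fun v => (Nat.le_add_left 1 _).trans (tv_lt hM z' v)) (hC n σ σ' τ f f1) f2
      (fun v a => card_le (f3 v a).1) with a | ⟨a, b⟩
    · simpa only [e] using a
    · have c := hB n σ σ' z (z'.tw θ) τ (Equiv.ofBijective f a) f1 fun v => f3 v (b v)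
      refine absurd ?_ h'
      intro G _ _ hG
      exact c G (z'.le_tw θ G hG)

end Pool.Agent.Adm.Dim
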