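import Pool.Agent.MP_0854a0_ag.Dim.St

namespace Pool.Agent.Adm.Dim

namespace PotX

/-- The best splitting value. -/
def S (c k : ℕ) : ℕ :=
  (Finset.Ioo 0 k).attach.sup fun a => S c a.1 + S c (k - a.1) + min (min a.1 (k - a.1)) c
termination_by k
decreasing_by
  · exact (Finset.mem_Ioo.1 a.2).2
  · have := Finset.mem_Ioo.1 a.2
    omega

theorem S_le {c k N : ℕ}
    (h : ∀ a b, 0 < a → 0 < b → a + b = k → S c a + S c b + min (min a b) c ≤ N) : S c k ≤ N := by
  rw [S]
  refine Finset.sup_le fun a _ => ?_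
  have := Finset.mem_Ioo.1 a.2
  exact h _ _ this.1 (by omega) (by omega)

theorem le_S (c : ℕ) {a b : ℕ} (ha : 0 < a) (hb : 0 < b) :
    S c a + S c b + min (min a b) c ≤ S c (a + b) := by
  conv_rhs => rw [S]
  refine le_trans ?_ (Finset.le_sup (Finset.mem_attach _ ⟨a, Finset.mem_Ioo.2 ⟨ha, by omega⟩⟩))
  simp

theorem S_mono {c c' : ℕ} (h : c ≤ c') (k : ℕ) : S c k ≤ S c' k := by
  induction k using Nat.strong_induction_on with
  | _ k ih =>
    refine S_le fun a b ha hb e => ?_
    have h1 := ih a (by omega)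
    have h2 := ih b (by omega)
    have h3 := le_S c' ha hb
    rw [e] at h3
    omega

theorem S_ee {f : ℕ → ℕ} (h : ∀ a b, f a + f b + min a b ≤ f (a + b)) (c k : ℕ) :
    S c k ≤ f k := by
  induction k using Nat.strong_induction_on with
  | _ k ih =>
    refine S_le fun a b ha hb e => ?_
    have h1 := ih a (by omega)
    have h2 := ih b (by omega)
    have h3 := h a b
    rw [e] at h3
    omega

/-- The superadditive function. -/
def T (c k : ℕ) : ℕ := min k c + S c k

theorem T_zero (c : ℕ) : T c 0 = 0 := by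
  have : S c 0 ≤ 0 := S_le fun a b ha hb e => by omega
  unfold T
  omega

theorem T_add (c a b : ℕ) : T c a + T c b ≤ T c (a + b) := by
  rcases Nat.eq_zero_or_pos a with rfl | ha
  · simp [T_zero]
  rcases Nat.eq_zero_or_pos b with rfl | hb
  · simp [T_zero]
  have := le_S c ha hb
  unfold T
  omega

theorem T_mono {c c' : ℕ} (h : c ≤ c') (k : ℕ) : T c k ≤ T c' k := by
  have := S_mono h k
  unfold T
  omega

theorem T_mono' (c : ℕ) {k k' : ℕ} (h : k ≤ k') : T c k ≤ T c k' := by
  obtain ⟨d, rfl⟩ := Nat.exists_eq_add_of_le h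
  exact le_trans (Nat.le_add_right _ _) (T_add c k d)

theorem T_sum {ι : Type} (c : ℕ) (s : Finset ι) (kk : ι → ℕ) :
    ∑ i ∈ s, T c (kk i) ≤ T c (∑ i ∈ s, kk i) := by
  classical
  induction s using Finset.induction_on with
  | empty => simp
  | insert a s ha ih =>
    rw [Finset.sum_insert ha, Finset.sum_insert ha]
    exact le_trans (Nat.add_le_add_left ih _) (T_add c _ _)

theorem le_T (k : ℕ) : k ≤ T 1 k := by
  induction k with
  | zero => exact Nat.zero_le _
  | succ k ih =>
    have h1 := T_add 1 k 1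
    have h2 : 1 ≤ T 1 1 := by unfold T; omega
    omega

/-- The potential. -/
def U (k t : ℕ) : ℕ := if t = 0 then k else 1 + T t k

theorem U_le {k t : ℕ} (h : t + 1 ≤ k) : U k t ≤ T (t + 1) k := by
  unfold U
  split_ifs with h0
  · subst h0
    exact le_T k
  · have := S_mono (Nat.le_add_right t 1) k
    unfold T
    omega

end PotX

theorem sPot (h : SEe) : SPot := by
  refine ⟨PotX.U, fun k t hk => ⟨?_, (PotX.U_le hk).trans ?_⟩, fun ι s kk tt K T hs h1 h2 => ?_⟩
  · unfold PotX.U
    split_ifs with h0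
    · exact le_rfl
    · have h1 := PotX.le_T k
      have h2 := PotX.T_mono (show 1 ≤ t by omega) k
      omega
  · have := PotX.S_ee h.2.2 (t + 1) k
    unfold PotX.T
    omega
  · obtain ⟨i, hi⟩ := hs
    have h3 := (h1 i hi).2
    have h4 : ∑ i ∈ s, PotX.U (kk i) (tt i) ≤ PotX.T T K :=
      (Finset.sum_le_sum fun i hi =>
        (PotX.U_le (h1 i hi).1).trans (PotX.T_mono (h1 i hi).2 _)).trans
        ((PotX.T_sum T s kk).trans (PotX.T_mono' T h2))
    have h5 : PotX.U K T = 1 + PotX.T T K := if_neg (by omega)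
    omega

end Pool.Agent.Adm.Dim
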