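import Pool.Agent.MP_0854a0_ag.Dim.St

namespace Pool.Agent.Adm.Dim

open Sum

namespace RealX

theorem vc_map {k k' G σ : Type} [Field k] [IsAlgClosed k] [Field k'] [IsAlgClosed k'] [Group G]
    [Finite G] [Fintype σ] (θ : K0 →+* k) (ψ : k →+* k') {p : σ → k} (hp : Function.Injective p)
    (d : σ → G) (R : Subgroup G) : VC (ψ.comp θ) (fun s => ψ (p s)) d R ↔ VC θ p d R := by
  have e : ∀ f : MvPolynomial σ K0, MvPolynomial.eval₂ (ψ.comp θ) (fun s => ψ (p s)) f =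
      ψ (MvPolynomial.eval₂ θ p f) := fun f => (MvPolynomial.eval₂_comp_left ψ θ p f).symm
  refine ⟨VC.gen (ψ.injective.comp hp) fun f hf => ?_, VC.gen hp fun f hf => ?_⟩
  · rw [e, hf, map_zero]
  · rwa [e, map_eq_zero] at hf

theorem vc_equiv {k G σ σ' : Type} [Field k] [Group G] (θ : K0 →+* k) (p : σ → k) (d : σ → G)
    (R : Subgroup G) (g : σ' ≃ σ) :
    VC θ (fun s => p (g s)) (fun s => d (g s)) R ↔ VC θ p d R :=
  ⟨fun h => by simpa using VP.reindex h g.symm g.symm.surjective,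
    fun h => VP.reindex h g g.surjective⟩

theorem exists_pt (hM : SMd) (hA : SAmal) {n : ℕ} (σ : Shape n) (B : Fin σ.r → Blk)
    (E : (Σ v, Bool ⊕ (B v).ι) ≃ σ.Slot) (h : ∀ x, σ.base (E x) = x.1) :
    ∃ z : Pt σ, (∀ v, tv z v = (B v).t) ∧
      ∀ (G : Type) [Group G] [Finite G] (v : Fin σ.r) (d : σ.Slot → G) (R : Subgroup G),
        z.VCat v d R ↔ VC (B v).θ (B v).p (fun y => d (E ⟨v, y⟩)) R := by
  obtain ⟨k, _, _, θ, ψ, hψ⟩ := hA σ.r B
  have hb : ∀ v, Function.Bijective fun y : Bool ⊕ (B v).ι => (⟨E ⟨v, y⟩, h _⟩ : σ.Sl v) := by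
    refine fun v => ⟨fun y y' e => ?_, ?_⟩
    · exact sigma_mk_injective (β := fun v => Bool ⊕ (B v).ι)
        (E.injective (congrArg Subtype.val e))
    · rintro ⟨s, hs⟩
      obtain ⟨⟨w, y⟩, rfl⟩ := E.surjective s
      have e : w = v := (h ⟨w, y⟩).symm.trans hs
      subst e
      exact ⟨y, rfl⟩
  let P : (Σ v, Bool ⊕ (B v).ι) → k := fun q => ψ q.1 ((B q.1).p q.2)
  have hx : ∀ v y, P (E.symm (Equiv.ofBijective _ (hb v) y).1) = ψ v ((B v).p y) := fun v y => by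
    show P (E.symm (E ⟨v, y⟩)) = _
    rw [E.symm_apply_apply]
  refine ⟨{ k := k, θ := θ, x := fun s => P (E.symm s), inj := fun s s' e1 e2 => ?_ },
    fun v => ?_, fun G _ _ v d R => ?_⟩
  · obtain ⟨⟨v, y⟩, rfl⟩ := E.surjective s
    obtain ⟨⟨w, y'⟩, rfl⟩ := E.surjective s'
    have e : v = w := (h ⟨v, y⟩).symm.trans (e1.trans (h ⟨w, y'⟩))
    subst e
    rw [E.symm_apply_apply, E.symm_apply_apply] at e2
    have e3 : y = y' := (B v).inj ((ψ v).injective e2)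
    rw [e3]
  · have e : (fun s : σ.Sl v => P (E.symm s.1)) =
        fun s => ψ v ((B v).p ((Equiv.ofBijective _ (hb v)).symm s)) := funext fun s => by
      rw [← hx, Equiv.apply_symm_apply]
    show md θ (fun s : σ.Sl v => P (E.symm s.1)) = md (B v).θ (B v).p
    rw [e, ← hψ v]
    exact hM.2.2 _ _ _ _ _ _ _ _
  · show VC θ (fun s : σ.Sl v => P (E.symm s.1)) (fun s => d s.1) R ↔ _
    rw [← vc_equiv θ _ _ R (Equiv.ofBijective _ (hb v)), ← vc_map _ (ψ v) (B v).inj, hψ v]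
    simp only [hx]
    rfl

end RealX

theorem sReal (hM : SMd) (hP : SPath) (hQ : SCQ) (hA : SAmal) : SReal := by
  intro n L hL hn
  obtain ⟨T, tree, comp, st, E, h1, h2, h3⟩ := hP n L.length (fun v => (L.get v).ι)
    (List.length_pos_iff.2 hL) (by rw [← hn, szL, ← Fin.sum_univ_fun_getElem]; rfl)
  obtain ⟨z, z1, z2⟩ := RealX.exists_pt hM hA ⟨L.length, T, tree, comp, st⟩ L.get E h1
  refine ⟨_, z, rfl, ?_, fun G _ _ => ?_⟩
  · rw [tL, ← Fin.sum_univ_fun_getElem]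
    exact Finset.sum_congr rfl fun v _ => z1 v
  rw [hQ G L hL]
  constructor
  · rintro ⟨d, R, ⟨k1, k2⟩, k3⟩
    refine ⟨fun v => d (E ⟨v, inl false⟩), fun v => d (E ⟨v, inl true⟩), R,
      fun v => ⟨fun i => d (E ⟨v, inr i⟩), ?_⟩, fun v w hv => ?_, k3⟩
    · have e : ends (d (E ⟨v, inl false⟩)) (d (E ⟨v, inl true⟩)) (fun i => d (E ⟨v, inr i⟩)) =
          fun y => d (E ⟨v, y⟩) := funext fun y => by rcases y with (_ | _) | _ <;> rfl
      rw [e]
      exact (z2 G v d (R v)).1 (k1 v)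
    · obtain ⟨δ, e1, e2⟩ := h3 v w hv
      have := k2 δ
      rwa [e1, e2] at this
  · rintro ⟨a, b, R, k1, k2, k3⟩
    choose dv hdv using k1
    let D : (Σ v : Fin L.length, Bool ⊕ (L.get v).ι) → G := fun q =>
      ends (a q.1) (b q.1) (dv q.1) q.2
    refine ⟨fun s => D (E.symm s), R, ⟨fun v => (z2 G v _ _).2 ?_, fun δ => ?_⟩, k3⟩
    · simp only [Equiv.symm_apply_apply]
      exact hdv v
    · obtain ⟨v, w, hv, ⟨e1, e2⟩ | ⟨e1, e2⟩⟩ := h2 δ
      · simp only [e1, e2, Equiv.symm_apply_apply]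
        exact k2 v w hv
      · simp only [e1, e2, Equiv.symm_apply_apply]
        exact inv_eq_iff_eq_inv.1 (k2 v w hv).symm

end Pool.Agent.Adm.Dim
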