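import Pool.Agent.MP_0854a0_ag.Dim.St

/-! The map on components defined by a specialisation of cross ratios. -/

namespace Pool.Agent.Adm.Dim

namespace RelX

variable {n : ℕ} {σ σ' : Shape n}

theorem rot {v : Fin σ.r} {i0 i1 i2 : Fin n} (h : σ.IsMed v i0 i1 i2) : σ.IsMed v i1 i2 i0 :=
  ⟨h.2.2, h.1.symm, h.2.1.symm⟩

theorem exists_last {τ : Fin n ≃ Fin n} {v : Fin σ.r} {v' : Fin σ'.r} {i0 i1 i2 : Fin n}
    (hm : σ.IsMed v i0 i1 i2) (hm' : σ'.IsMed v' (τ i0) (τ i1) (τ i2)) (s s' : σ.Slot) :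
    ∃ j0 j1 j2, σ.IsMed v j0 j1 j2 ∧ σ'.IsMed v' (τ j0) (τ j1) (τ j2) ∧
      s ≠ σ.dir v j2 ∧ s' ≠ σ.dir v j2 := by
  by_cases a2 : s ≠ σ.dir v i2 ∧ s' ≠ σ.dir v i2
  · exact ⟨i0, i1, i2, hm, hm', a2⟩
  by_cases a0 : s ≠ σ.dir v i0 ∧ s' ≠ σ.dir v i0
  · exact ⟨i1, i2, i0, rot hm, rot hm', a0⟩
  refine ⟨i2, i0, i1, rot (rot hm), rot (rot hm'), ?_⟩
  obtain ⟨h01, h02, h12⟩ := hm
  rw [not_and_or, not_not, not_not] at a2 a0
  rcases a2 with a2 | a2 <;> rcases a0 with a0 | a0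
  · exact absurd (a0.symm.trans a2) h02
  · exact ⟨fun e => h12 (e.symm.trans a2), fun e => h01 (a0.symm.trans e)⟩
  · exact ⟨fun e => h01 (a0.symm.trans e), fun e => h12 (e.symm.trans a2)⟩
  · exact absurd (a0.symm.trans a2) h02

theorem refines {z : Pt σ} {z' : Pt σ'} {τ : Fin n ≃ Fin n} (hR : z.Rel z' τ) {v : Fin σ.r}
    {v' : Fin σ'.r} {i0 i1 i2 : Fin n} (hm : σ.IsMed v i0 i1 i2)
    (hm' : σ'.IsMed v' (τ i0) (τ i1) (τ i2)) (l l' : Fin n)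
    (e : σ'.dir v' (τ l) = σ'.dir v' (τ l')) : σ.dir v l = σ.dir v l' := by
  obtain ⟨j0, j1, j2, km, km', hl, hl'⟩ := exists_last hm hm' (σ.dir v l) (σ.dir v l')
  refine (z.crs_eq_iff km hl hl').1 ((hR v v' j0 j1 j2 km km').2.eq_of_eq ?_)
  rw [if_neg hl, if_neg hl', Pt.crs, Pt.crs, e]

theorem tv_eq (hM : SMd) (z : Pt σ) (τ : Fin n ≃ Fin n) {v : Fin σ.r} {i0 i1 i2 : Fin n}
    (hm : σ.IsMed v i0 i1 i2) : tv z v = td z.θ fun l => z.crs v i0 i1 i2 (τ l) := by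
  have hi : Function.Injective fun s : σ.Sl v => z.x s := fun s s' e =>
    Subtype.ext (z.inj s s' (s.2.trans s'.2.symm) e)
  have hs : Function.Surjective fun l : Fin n =>
      (⟨σ.dir v (τ l), σ.base_dir v (τ l)⟩ : σ.Sl v) := fun s => by
    obtain ⟨l, hl⟩ := σ.exists_dir s.1
    rw [s.2] at hl
    refine ⟨τ.symm l, Subtype.ext ?_⟩
    simpa only [Equiv.apply_symm_apply] using hl
  have k := hM.1 z.k (σ.Sl v) (Fin n) z.θ (fun s : σ.Sl v => z.x s)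
    ⟨σ.dir v i0, σ.base_dir v i0⟩ ⟨σ.dir v i1, σ.base_dir v i1⟩ ⟨σ.dir v i2, σ.base_dir v i2⟩
    (fun l => ⟨σ.dir v (τ l), σ.base_dir v (τ l)⟩) hi
    (fun e => hm.1 (congrArg Subtype.val e)) (fun e => hm.2.1 (congrArg Subtype.val e))
    (fun e => hm.2.2 (congrArg Subtype.val e)) hs
  unfold tv Pt.crs
  exact k

theorem td_trunc (h : STd) {k ι : Type} [Field k] [Fintype ι] (θ : K0 →+* k) (a : ι → k)
    (p : ι → Prop) [DecidablePred p] : td θ (fun l => if p l then 0 else a l) ≤ td θ a := by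
  refine h.1 k ι ι θ _ a fun s => ?_
  split_ifs
  · exact zero_mem _
  · exact Subfield.subset_closure (Or.inr ⟨s, rfl⟩)

end RelX

open RelX

theorem sRel (h : STd) (hM : SMd) : SRel := by
  intro n σ σ' z z' τ hR
  have h1 : ∀ v : Fin σ.r, ∃ v' : Fin σ'.r, ∃ i0 i1 i2, σ.IsMed v i0 i1 i2 ∧
      σ'.IsMed v' (τ i0) (τ i1) (τ i2) := fun v => by
    obtain ⟨i0, i1, i2, hm⟩ := σ.exists_triple v
    obtain ⟨a, b, c⟩ := hm.ne
    obtain ⟨v', hv'⟩ := σ'.exists_med (τ.injective.ne a) (τ.injective.ne b) (τ.injective.ne c)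
    exact ⟨v', i0, i1, i2, hm, hv'⟩
  choose f hf using h1
  have hRef : Ref σ σ' τ f := fun v l l' e => by
    obtain ⟨i0, i1, i2, hm, hm'⟩ := hf v
    exact refines hR hm hm' l l' e
  have hmed : ∀ v i0 i1 i2, σ.IsMed v i0 i1 i2 → σ'.IsMed (f v) (τ i0) (τ i1) (τ i2) :=
    fun v i0 i1 i2 hm => ⟨fun e => hm.1 (hRef v _ _ e), fun e => hm.2.1 (hRef v _ _ e),
      fun e => hm.2.2 (hRef v _ _ e)⟩
  have ht : ∀ v i0 i1 i2, σ.IsMed v i0 i1 i2 → tv z v = td z.θ (z.crs v i0 i1 i2) :=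
    fun v i0 i1 i2 hm => tv_eq hM z (Equiv.refl _) hm
  refine ⟨f, hRef, fun v => ?_, fun v hle => ?_⟩
  · obtain ⟨i0, i1, i2, hm, hm'⟩ := hf v
    rw [ht v i0 i1 i2 hm, tv_eq hM z' τ hm']
    exact (hR v (f v) i0 i1 i2 hm hm').2.td_le.trans (td_trunc h _ _ _)
  have hK : ∀ i0 i1 i2 (hm : σ.IsMed v i0 i1 i2), _ := fun i0 i1 i2 hm =>
    (hR v (f v) i0 i1 i2 hm (hmed v i0 i1 i2 hm)).2.symm_of_td_le
      ((td_trunc h _ _ _).trans ((tv_eq hM z' τ (hmed v i0 i1 i2 hm)).symm.le.trans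
        (hle.trans (ht v i0 i1 i2 hm).le)))
  have hP : ∀ l l', σ.dir v l = σ.dir v l' → σ'.dir (f v) (τ l) = σ'.dir (f v) (τ l') := by
    intro l l' e
    obtain ⟨i0, i1, i2, hm, hm'⟩ := hf v
    obtain ⟨j0, j1, j2, km, km', hl, hl'⟩ := exists_last hm hm' (σ.dir v l) (σ.dir v l')
    have k1 := (hR v (f v) j0 j1 j2 km km').1
    have k2 := (hK j0 j1 j2 km).eq_of_eq (s := l) (s' := l') (by rw [Pt.crs, Pt.crs, e])
    rw [if_neg hl, if_neg hl'] at k2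
    exact (z'.crs_eq_iff km' (k1 l hl) (k1 l' hl')).1 k2
  refine ⟨hP, fun i0 i1 i2 hm => ?_⟩
  have k := hK i0 i1 i2 hm
  have e : (fun l => if σ.dir v l = σ.dir v i2 then 0 else
      z'.crs (f v) (τ i0) (τ i1) (τ i2) (τ l)) =
      fun l => z'.crs (f v) (τ i0) (τ i1) (τ i2) (τ l) := by
    funext l
    split_ifs with a
    · exact ((z'.crs_eq_zero_iff (hmed v i0 i1 i2 hm) (τ l)).2 (Or.inr (hP _ _ a))).symm
    · rfl
  exact e ▸ k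

end Pool.Agent.Adm.Dim
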