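import Pool.Agent.MP_0854a0_ag.Dim.St

/-! Smoothing a node with explicit points. -/

namespace Pool.Agent.Adm.Dim

open Sum
open scoped OnePoint

namespace SmoothX

theorem core {k C G A B : Type} [Field k] [IsAlgClosed k] [NormedField C] [CompleteSpace C]
    [IsUltrametricDist C] [IsAlgClosed C] [Group G] [Finite G] (θ : K0 →+* k) (φ : k →+* C)
    (hφ : ∀ x, ‖φ x‖ ≤ 1) (t : C) (ht0 : t ≠ 0) (ht : ‖t‖ < 1) (c1 c2 : Cover k G)
    (Q1 : A → k) (Q2 : B → k) (d1 : A → G) (d2 : B → G) (h0 : ∀ i, Q2 i ≠ 0) (g : G)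
    (g1 : c1.M θ ∞ g) (g2 : c2.M θ ((0 : k) : OnePoint k) g⁻¹) (g3 : c2.M θ ∞ 1)
    (a1 : ∀ i, c1.M θ (Q1 i : OnePoint k) (d1 i))
    (a2 : ∀ y : k, y ∉ Set.range Q1 → c1.M θ (y : OnePoint k) 1)
    (b1 : ∀ i, c2.M θ (Q2 i : OnePoint k) (d2 i))
    (b2 : ∀ y : k, y ≠ 0 → y ∉ Set.range Q2 → c2.M θ (y : OnePoint k) 1) :
    VC (φ.comp θ) (Sum.elim (fun i => t * φ (Q1 i)) fun i => φ (Q2 i)) (Sum.elim d1 d2)
      (c1.ι.range ⊔ c2.ι.range) := by
  obtain ⟨cB, hB, tr⟩ := exists_trivial_cover k G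
  have gl2 : Glue c2 cB := by
    obtain ⟨e, -, hm⟩ := g3
    exact ⟨e, _, 1, hm, tr _ e _ hm.1 hm.2.1.inv⟩
  have gl1 : Glue c1 c2 := by
    obtain ⟨e, ζ, hm, hm'⟩ := g1.glue g2
    exact ⟨e, ζ, g, hm, hm'⟩
  obtain ⟨c, r, mA, mM, mB, mI, mT⟩ := smooth_two φ hφ t t ht0 ht ht0 ht c1 c2 cB gl1 gl2
  have MA : ∀ (y : k) (γ : G), c1.M θ (y : OnePoint k) γ →
      c.M (φ.comp θ) ((t * φ y : C) : OnePoint C) γ := by
    rintro y γ ⟨e, he, hm⟩
    exact ⟨e, he, mA y e _ γ hm⟩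
  have MM : ∀ (y : k) (γ : G), y ≠ 0 → c2.M θ (y : OnePoint k) γ →
      c.M (φ.comp θ) ((φ y : C) : OnePoint C) γ := by
    rintro y γ hy ⟨e, he, hm⟩
    exact ⟨e, he, mM y e _ γ hy hm⟩
  refine ⟨c, by rw [r, hB, sup_bot_eq], fun a ha => ?_, ?_⟩
  · induction a using OnePoint.rec with
    | infty => exact (mI 1 1 1 (tr _ 1 1 one_pos IsPrimitiveRoot.one)).m_one _
    | coe x =>
      by_cases h1 : ∃ y, x = t * φ y
      · obtain ⟨y, rfl⟩ := h1
        refine MA y 1 (a2 y ?_)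
        rintro ⟨i, rfl⟩
        exact ha ⟨inl i, rfl⟩
      by_cases h2 : ∃ y, x = φ y
      · obtain ⟨y, rfl⟩ := h2
        have hy : y ≠ 0 := by
          rintro rfl
          exact h1 ⟨0, by simp⟩
        refine MM y 1 hy (b2 y hy ?_)
        rintro ⟨i, rfl⟩
        exact ha ⟨inr i, rfl⟩
      by_cases h3 : ∃ y, x = φ y / t
      · obtain ⟨y, rfl⟩ := h3
        have hy : y ≠ 0 := by
          rintro rfl
          exact h1 ⟨0, by simp⟩
        exact (mB y 1 1 1 hy (tr _ 1 1 one_pos IsPrimitiveRoot.one)).m_one _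
      push Not at h1 h2 h3
      exact (mT x h1 h2 h3).m_one _
  · rintro (i | i)
    · exact MA _ _ (a1 i)
    · exact MM _ _ (h0 i) (b1 i)

/-- The left end and the marks. -/
def lf {ι : Type} : Option ι → Bool ⊕ ι := fun o => o.elim (inl false) inr

/-- The right end and the marks. -/
def rt {ι : Type} : Option ι → Bool ⊕ ι := fun o => o.elim (inl true) inr

/-- The special points of the smoothed curve. -/
def jn {ι1 ι2 : Type} : Bool ⊕ (ι1 ⊕ ι2) → Option ι1 ⊕ Option ι2 :=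
  Sum.elim (fun b => cond b (inr none) (inl none)) (Sum.map some some)

theorem lf_inj {ι : Type} : Function.Injective (lf (ι := ι)) := by
  rintro (_ | a) (_ | b) h <;> simp_all [lf]

theorem rt_inj {ι : Type} : Function.Injective (rt (ι := ι)) := by
  rintro (_ | a) (_ | b) h <;> simp_all [rt]

theorem lf_ne {ι : Type} (o : Option ι) : lf o ≠ inl true := by
  rcases o with _ | a <;> simp [lf]

theorem rt_ne {ι : Type} (o : Option ι) : rt o ≠ inl false := by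
  rcases o with _ | a <;> simp [rt]

theorem lf_surj {ι : Type} (s : Bool ⊕ ι) (h : s ≠ inl true) : ∃ o, lf o = s := by
  rcases s with (_ | _) | a
  · exact ⟨none, rfl⟩
  · exact absurd rfl h
  · exact ⟨some a, rfl⟩

theorem rt_surj {ι : Type} (s : Bool ⊕ ι) (h : s ≠ inl false) : ∃ o, rt o = s := by
  rcases s with (_ | _) | a
  · exact absurd rfl h
  · exact ⟨none, rfl⟩
  · exact ⟨some a, rfl⟩

theorem jn_inj {ι1 ι2 : Type} : Function.Injective (jn (ι1 := ι1) (ι2 := ι2)) := by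
  rintro ((_ | _) | a | a) ((_ | _) | b | b) h <;> simp_all [jn]

theorem jn_surj {ι1 ι2 : Type} : Function.Surjective (jn (ι1 := ι1) (ι2 := ι2)) := by
  rintro ((_ | a) | (_ | a))
  · exact ⟨inl false, rfl⟩
  · exact ⟨inr (inl a), rfl⟩
  · exact ⟨inl true, rfl⟩
  · exact ⟨inr (inr a), rfl⟩

end SmoothX

open SmoothX in
theorem sSmooth : SSmooth := by
  intro k ι1 ι2 _ _ _ _ θ p1 p2 h1 h2
  obtain ⟨C, _, _, _, _, φ, hφ, t, ht0, ht⟩ := exists_bigField k
  let Q1 : Option ι1 → k := fun o => (p1 (lf o) - p1 (inl true))⁻¹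
  let Q2 : Option ι2 → k := fun o => 1 * p2 (rt o) + -p2 (inl false)
  have i1 : Function.Injective Q1 := fun a b h =>
    lf_inj (h1 (sub_left_injective (inv_injective h)))
  have i2 : Function.Injective Q2 := fun a b h =>
    rt_inj (h2 (mul_left_cancel₀ one_ne_zero (add_right_cancel h)))
  have h0 : ∀ o, Q2 o ≠ 0 := fun o h =>
    rt_ne o (h2 (by rwa [← sub_eq_zero, sub_eq_add_neg, ← one_mul (p2 (rt o))]))
  let P : Option ι1 ⊕ Option ι2 → C := Sum.elim (fun i => t * φ (Q1 i)) fun i => φ (Q2 i)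
  have hP : Function.Injective P := by
    rintro (a | a) (b | b) h
    · exact congrArg inl (i1 (φ.injective (mul_left_cancel₀ ht0 h)))
    · exact absurd h (ne_GM φ hφ ht _ (h0 b))
    · exact absurd h.symm (ne_GM φ hφ ht _ (h0 a))
    · exact congrArg inr (i2 (φ.injective h))
  refine ⟨C, inferInstance, inferInstance, φ, t, fun x => P (jn x), hP.comp jn_inj, fun x => ?_,
    fun G _ _ g0 g g1 d1 d2 R1 R2 v1 v2 => ?_⟩
  · have m1 : ∀ y, φ y ∈ Subfield.closure (Set.range φ ∪ {t}) := fun y =>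
      Subfield.subset_closure (Or.inl ⟨y, rfl⟩)
    change P (jn x) ∈ _
    rcases jn x with a | a
    · exact mul_mem (Subfield.subset_closure (Or.inr rfl)) (m1 _)
    · exact m1 _
  obtain ⟨μ, hμ, -, μ1, μ2⟩ := exists_mob_sub_inv (p1 (inl true))
  obtain ⟨ν, hν, -, ν2⟩ := exists_mob_affine (1 : k) (-p2 (inl false)) one_ne_zero
  obtain ⟨c1, r1, u1, n1⟩ := VP.mob v1 μ hμ.1
  obtain ⟨c2, r2, u2, n2⟩ := VP.mob v2 ν hν.1
  have e1 : ∀ o, μ (p1 (lf o)) = (Q1 o : OnePoint k) := fun o => μ2 _ (h1.ne (lf_ne o))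
  have e2 : ∀ o, ν (p2 (rt o)) = (Q2 o : OnePoint k) := fun o => ν2 _
  have e3 : ν (p2 (inl false)) = ((0 : k) : OnePoint k) := by rw [ν2, one_mul, add_neg_cancel]
  have key := core θ φ hφ t ht0 ht c1 c2 Q1 Q2 (fun o => ends g0 g d1 (lf o))
    (fun o => ends g⁻¹ g1 d2 (rt o)) h0 g (μ1 ▸ n1 (inl true)) (e3 ▸ n2 (inl false))
    (u2 _ (by
      rintro ⟨s, hs⟩
      exact OnePoint.coe_ne_infty _ ((ν2 _).symm.trans hs)))
    (fun o => e1 o ▸ n1 (lf o))
    (fun y hy => u1 _ (by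
      rintro ⟨s, hs⟩
      by_cases h : s = inl true
      · rw [h] at hs
        exact OnePoint.coe_ne_infty y (hs.symm.trans μ1)
      · obtain ⟨o, rfl⟩ := lf_surj s h
        exact hy ⟨o, OnePoint.coe_injective ((e1 o).symm.trans hs)⟩))
    (fun o => e2 o ▸ n2 (rt o))
    (fun y hy0 hy => u2 _ (by
      rintro ⟨s, hs⟩
      by_cases h : s = inl false
      · rw [h] at hs
        exact hy0 (OnePoint.coe_injective (hs.symm.trans e3))
      · obtain ⟨o, rfl⟩ := rt_surj s h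
        exact hy ⟨o, OnePoint.coe_injective ((e2 o).symm.trans hs)⟩))
  rw [r1, r2] at key
  have k2 := VP.reindex key jn jn_surj
  convert k2 using 2 with x
  rcases x with (_ | _) | a | a <;> rfl

end Pool.Agent.Adm.Dim
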