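import Pool.Agent.Mg.F0854a0.G7996e0

/-! Definitions and statements of the steps for the exact dimension in genus zero. -/

namespace Pool.Agent.Adm.Dim

open Sum

noncomputable section

/-- The sum of the binary digit sums of the numbers below k. -/
def ee (k : ℕ) : ℕ := ∑ i ∈ Finset.range k, (Nat.digits 2 i).sum

/-- All cross ratios of a family of points. -/
def crAll {k ι : Type} [Field k] (p : ι → k) (q : ι × ι × ι × ι) : k :=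
  cr (p q.1) (p q.2.1) (p q.2.2.1) (p q.2.2.2)

/-- The number of moduli of a family of points. -/
def md {k ι : Type} [Field k] [Fintype ι] (θ : K0 →+* k) (p : ι → k) : ℕ := td θ (crAll p)

/-- The number of special points of a component minus two. -/
def kv {n : ℕ} (σ : Shape n) (v : Fin σ.r) : ℕ := Fintype.card (σ.Sl v) - 2

/-- The number of moduli of a component. -/
def tv {n : ℕ} {σ : Shape n} (z : Pt σ) (v : Fin σ.r) : ℕ := md z.θ fun s : σ.Sl v => z.x s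

/-- The partition of the marks at f v refines the partition at v. -/
def Ref {n : ℕ} (σ σ' : Shape n) (τ : Fin n ≃ Fin n) (f : Fin σ.r → Fin σ'.r) : Prop :=
  ∀ v l l', σ'.dir (f v) (τ l) = σ'.dir (f v) (τ l') → σ.dir v l = σ.dir v l'

/-- The partitions at v and v' agree and the cross ratios of z' at v' specialise those of z. -/
def Same {n : ℕ} {σ σ' : Shape n} (z : Pt σ) (z' : Pt σ') (τ : Fin n ≃ Fin n) (v : Fin σ.r)
    (v' : Fin σ'.r) : Prop :=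
  (∀ l l', σ.dir v l = σ.dir v l' → σ'.dir v' (τ l) = σ'.dir v' (τ l')) ∧
    ∀ i0 i1 i2, σ.IsMed v i0 i1 i2 →
      KerLe z.θ (z.crs v i0 i1 i2) z'.θ fun l => z'.crs v' (τ i0) (τ i1) (τ i2) (τ l)

/-- A line with a left end, a right end and marked points. -/
structure Blk : Type 1 where
  k : Type
  [field : Field k]
  [closed : IsAlgClosed k]
  θ : K0 →+* k
  ι : Type
  [fin : Fintype ι]
  [ne : Nonempty ι]
  p : Bool ⊕ ι → k
  inj : Function.Injective p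

attribute [instance] Blk.field Blk.closed Blk.fin Blk.ne

/-- The number of marked points. -/
def Blk.sz (B : Blk) : ℕ := Fintype.card B.ι

/-- The number of moduli. -/
def Blk.t (B : Blk) : ℕ := md B.θ B.p

/-- Inertia generators: g0 at the left end, g1 at the right end, d at the marks. -/
def ends {G ι : Type} (g0 g1 : G) (d : ι → G) : Bool ⊕ ι → G :=
  Sum.elim (fun b => cond b g1 g0) d

/-- Coverings with prescribed inertia generators at the two ends. -/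
def Blk.V (B : Blk) {G : Type} [Group G] (g0 g1 : G) (R : Subgroup G) : Prop :=
  ∃ d : B.ι → G, VC B.θ B.p (ends g0 g1 d) R

/-- Every covering of B gives a covering of B'. -/
def Blk.Le (B B' : Blk) : Prop :=
  ∀ (G : Type) [Group G] [Finite G] (g0 g1 : G) (R : Subgroup G), B.V g0 g1 R → B'.V g0 g1 R

/-- B smooths the node between B1 and B2. -/
def Blk.Mer (B1 B2 B : Blk) : Prop :=
  ∀ (G : Type) [Group G] [Finite G] (g0 g g1 : G) (R1 R2 : Subgroup G),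
    B1.V g0 g R1 → B2.V g⁻¹ g1 R2 → B.V g0 g1 (R1 ⊔ R2)

/-- Coverings of a chain of lines. -/
def CQ {G : Type} [Group G] : List Blk → G → G → Subgroup G → Prop
  | [], g0, g1, R => g1 = g0⁻¹ ∧ R = ⊥
  | B :: L, g0, g1, R => ∃ g R1 R2, B.V g0 g R1 ∧ CQ L g⁻¹ g1 R2 ∧ R = R1 ⊔ R2

/-- The number of marked points of a chain. -/
def szL (L : List Blk) : ℕ := (L.map Blk.sz).sum

/-- The number of moduli of a chain. -/
def tL (L : List Blk) : ℕ := (L.map Blk.t).sum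

/-- A strict step between chains. -/
def LtL (L L' : List Blk) : Prop :=
  (∀ (G : Type) [Group G] [Finite G] (g0 g1 : G) (R : Subgroup G),
    CQ L g0 g1 R → CQ L' g0 g1 R) ∧
  (L'.length < L.length ∨ (L'.length = L.length ∧ tL L < tL L'))

/-- The properties of the potential. -/
def IsPot (U : ℕ → ℕ → ℕ) : Prop :=
  (∀ k t, t + 1 ≤ k → k ≤ U k t ∧ U k t ≤ k + ee k) ∧
    ∀ (ι : Type) (s : Finset ι) (kk tt : ι → ℕ) (K T : ℕ), s.Nonempty →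
      (∀ i ∈ s, tt i + 1 ≤ kk i ∧ tt i < T) → ∑ i ∈ s, kk i ≤ K →
      ∑ i ∈ s, U (kk i) (tt i) < U K T

/-- Independent families in k have at most e members. -/
def TdLe (k : Type) [Field k] (e : ℕ) : Prop :=
  ∀ (θ' : K0 →+* k) (σ : Type) [Fintype σ] (a : σ → k), Indep θ' a → Fintype.card σ ≤ e

/-- The special points of the shape are the ends and marks of a chain of r lines. -/
def IsPath {n : ℕ} (σ : Shape n) (ι : Fin σ.r → Type)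
    (E : (Σ v, Bool ⊕ ι v) ≃ σ.Slot) : Prop :=
  (∀ x, σ.base (E x) = x.1) ∧
  (∀ δ : σ.T.Dart, ∃ v w : Fin σ.r, v.1 + 1 = w.1 ∧
    ((inl δ = E ⟨v, inl true⟩ ∧ inl δ.symm = E ⟨w, inl false⟩) ∨
      (inl δ.symm = E ⟨v, inl true⟩ ∧ inl δ = E ⟨w, inl false⟩))) ∧
  ∀ v w : Fin σ.r, v.1 + 1 = w.1 →
    ∃ δ : σ.T.Dart, inl δ = E ⟨v, inl true⟩ ∧ inl δ.symm = E ⟨w, inl false⟩

def SEe : Prop :=
  (∀ a, ee (2 * a) = 2 * ee a + a) ∧ (∀ a, ee (2 * a + 1) = ee a + ee (a + 1) + a) ∧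
    ∀ a b, ee a + ee b + min a b ≤ ee (a + b)

def SPot : Prop := ∃ U, IsPot U

def STd : Prop :=
  (∀ (k σ σ' : Type) [Field k] [Fintype σ] [Fintype σ'] (θ : K0 →+* k) (a : σ → k) (b : σ' → k),
    (∀ s, a s ∈ Subfield.closure (Set.range θ ∪ Set.range b)) → td θ a ≤ td θ b) ∧
  (∀ (k σ : Type) [Field k] [Fintype σ] (θ θ' : K0 →+* k) (a : σ → k), td θ a = td θ' a) ∧
  (∀ (k k' σ : Type) [Field k] [Field k'] [Fintype σ] (θ : K0 →+* k) (ψ : k →+* k') (a : σ → k),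
    td (ψ.comp θ) (fun s => ψ (a s)) = td θ a)

def STd2 : Prop :=
  ∀ (k C σ : Type) [Field k] [Field C] [Fintype σ] (θ : K0 →+* k) (φ : k →+* C) (s : C)
    (a : σ → C) (e : ℕ), TdLe k e → (∀ x, a x ∈ Subfield.closure (Set.range φ ∪ {s})) →
    td (φ.comp θ) a ≤ e + 1

def SMd : Prop :=
  (∀ (k ι κ : Type) [Field k] [Fintype ι] [Fintype κ] (θ : K0 →+* k) (p : ι → k)
    (s0 s1 s2 : ι) (g : κ → ι), Function.Injective p → s0 ≠ s1 → s0 ≠ s2 → s1 ≠ s2 →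
    Function.Surjective g → md θ p = td θ fun l => cr (p s0) (p s1) (p s2) (p (g l))) ∧
  (∀ (k ι : Type) [Field k] [Fintype ι] (θ : K0 →+* k) (p : ι → k), Function.Injective p →
    3 ≤ Fintype.card ι → md θ p + 3 ≤ Fintype.card ι) ∧
  (∀ (k k' ι ι' : Type) [Field k] [Field k'] [Fintype ι] [Fintype ι'] (θ : K0 →+* k)
    (ψ : k →+* k') (p : ι → k) (g : ι' ≃ ι), md (ψ.comp θ) (fun s => ψ (p (g s))) = md θ p)

def SCompat : Prop :=
  ∀ (n : ℕ) (σ : Shape n), (∀ u w : Fin σ.r, u ≠ w →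
    ∃ s s' : σ.Slot, ∀ l, σ.dir u l = s ∨ σ.dir w l = s') ∧
  (∀ u w i0 i1 i2, σ.IsMed u i0 i1 i2 → σ.IsMed w i0 i1 i2 → u = w) ∧
  ∀ (u w : Fin σ.r) (l0 : Fin n),
    (∀ l, σ.dir u l = σ.dir u l0 ↔ σ.dir w l = σ.dir w l0) → u = w

def SCount : Prop :=
  ∀ (n : ℕ) (σ σ' : Shape n) (τ : Fin n ≃ Fin n) (f : Fin σ.r → Fin σ'.r), Ref σ σ' τ f →
    ∀ v', ∑ v ∈ Finset.univ.filter (fun v => f v = v'), kv σ v = kv σ' v'

def SRel : Prop :=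
  ∀ (n : ℕ) (σ σ' : Shape n) (z : Pt σ) (z' : Pt σ') (τ : Fin n ≃ Fin n), z.Rel z' τ →
    ∃ f : Fin σ.r → Fin σ'.r, Ref σ σ' τ f ∧ (∀ v, tv z v ≤ tv z' (f v)) ∧
      ∀ v, tv z' (f v) ≤ tv z v → Same z z' τ v (f v)

def SIso : Prop :=
  ∀ (n : ℕ) (σ σ' : Shape n) (τ : Fin n ≃ Fin n) (f : Fin σ.r ≃ Fin σ'.r), Ref σ σ' τ f →
    (∀ v l l', σ.dir v l = σ.dir v l' → σ'.dir (f v) (τ l) = σ'.dir (f v) (τ l')) →
    ∃ g : σ.Slot ≃ σ'.Slot, (∀ v l, g (σ.dir v l) = σ'.dir (f v) (τ l)) ∧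
      ∀ δ : σ.T.Dart, ∃ δ' : σ'.T.Dart, g (inl δ) = inl δ' ∧ g (inl δ.symm) = inl δ'.symm

def SBack : Prop :=
  ∀ (n : ℕ) (σ σ' : Shape n) (z : Pt σ) (z' : Pt σ') (τ : Fin n ≃ Fin n)
    (f : Fin σ.r ≃ Fin σ'.r), Ref σ σ' τ f → (∀ v, Same z z' τ v (f v)) → z'.Le z

def SPhi : Prop :=
  ∃ Φ : ∀ (n : ℕ) (σ : Shape n), Pt σ → ℕ, ∀ (n : ℕ) (σ : Shape n) (z : Pt σ),
    n - 2 ≤ Φ n σ z ∧ Φ n σ z ≤ n - 2 + ee (n - 2) ∧
    ∀ (σ' : Shape n) (z' : Pt σ'), z.Le z' → ¬ z'.Le z → Φ n σ z < Φ n σ' z'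

def SLex : Prop :=
  ∀ (n : ℕ) (σ σ' : Shape n) (z : Pt σ) (z' : Pt σ'), z.Le z' →
    σ'.r ≤ σ.r ∧ (σ'.r = σ.r → ∑ v, tv z v ≤ ∑ v, tv z' v)

def SUp : Prop :=
  ∀ B : Blk, B.t + 1 < B.sz → ∃ B' : Blk, B'.sz = B.sz ∧ B.Le B' ∧ B.t < B'.t ∧ B'.t ≤ B.t + 1

def SEmb : Prop :=
  ∀ (k k' σ : Type) [Field k] [Field k'] [IsAlgClosed k'] [Fintype σ] (θ : K0 →+* k)
    (θ' : K0 →+* k') (a : σ → k) (e : ℕ) (t : Fin e → k'), Indep θ' t → td θ a ≤ e →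
    ∃ a' : σ → k', KerLe θ' a' θ a ∧ KerLe θ a θ' a'

def SSmooth : Prop :=
  ∀ (k ι1 ι2 : Type) [Field k] [IsAlgClosed k] [Fintype ι1] [Fintype ι2] (θ : K0 →+* k)
    (p1 : Bool ⊕ ι1 → k) (p2 : Bool ⊕ ι2 → k), Function.Injective p1 → Function.Injective p2 →
    ∃ (C : Type) (_ : Field C) (_ : IsAlgClosed C) (φ : k →+* C) (s : C)
      (P : Bool ⊕ (ι1 ⊕ ι2) → C), Function.Injective P ∧
      (∀ x, P x ∈ Subfield.closure (Set.range φ ∪ {s})) ∧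
      ∀ (G : Type) [Group G] [Finite G] (g0 g g1 : G) (d1 : ι1 → G) (d2 : ι2 → G)
        (R1 R2 : Subgroup G), VC θ p1 (ends g0 g d1) R1 → VC θ p2 (ends g⁻¹ g1 d2) R2 →
        VC (φ.comp θ) P (ends g0 g1 (Sum.elim d1 d2)) (R1 ⊔ R2)

def SMerge : Prop :=
  (∀ (B1 B2 : Blk) (e : ℕ), B1.t ≤ e → B2.t ≤ e →
    ∃ B : Blk, B.sz = B1.sz + B2.sz ∧ B.t ≤ e + 1 ∧ Blk.Mer B1 B2 B) ∧
  ∀ m, 1 ≤ m → ∃ B : Blk, B.sz = m ∧ B.t = 0

def SChain : Prop :=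
  ∀ m, 1 ≤ m → ∃ c : ℕ → List Blk, (∀ i, c i ≠ [] ∧ szL (c i) = m) ∧
    ∀ i < ee m, LtL (c i) (c (i + 1))

def SPath : Prop :=
  ∀ (n r : ℕ) (ι : Fin r → Type) [∀ v, Fintype (ι v)] [∀ v, Nonempty (ι v)], 0 < r →
    ∑ v, Fintype.card (ι v) + 2 = n →
    ∃ (T : SimpleGraph (Fin r)) (tree : T.IsTree) (comp : Fin n → Fin r)
      (st : ∀ v, 3 ≤ Nat.card {s // slotBase T comp s = v})
      (E : (Σ v, Bool ⊕ ι v) ≃ (⟨r, T, tree, comp, st⟩ : Shape n).Slot),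
      IsPath (⟨r, T, tree, comp, st⟩ : Shape n) ι E

def SCQ : Prop :=
  ∀ (G : Type) [Group G] (L : List Blk), L ≠ [] → ((∃ g0 g1 : G, CQ L g0 g1 ⊤) ↔
    ∃ (a b : Fin L.length → G) (R : Fin L.length → Subgroup G),
      (∀ v, (L.get v).V (a v) (b v) (R v)) ∧
      (∀ v w : Fin L.length, v.1 + 1 = w.1 → a w = (b v)⁻¹) ∧ ⨆ v, R v = ⊤)

def SAmal : Prop :=
  ∀ (r : ℕ) (B : Fin r → Blk), ∃ (k : Type) (_ : Field k) (_ : IsAlgClosed k) (θ : K0 →+* k)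
    (ψ : ∀ v, (B v).k →+* k), ∀ v, (ψ v).comp (B v).θ = θ

def SReal : Prop :=
  ∀ (n : ℕ) (L : List Blk), L ≠ [] → szL L + 2 = n →
    ∃ (σ : Shape n) (z : Pt σ), σ.r = L.length ∧ ∑ v, tv z v = tL L ∧
      ∀ (G : Type) [Group G] [Finite G], z.Q G ↔ ∃ g0 g1 : G, CQ L g0 g1 ⊤

def SLower : Prop :=
  ∀ n, 3 ≤ n → ((ee (n - 2) : ℕ) : WithBot ℕ∞) ≤ topologicalKrullDim (PiBar 2 n)

def SUpper : Prop :=
  ∀ (n : ℕ) (s : LTSeries (TopologicalSpace.IrreducibleCloseds (PiBar 2 n))),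
    s.length ≤ ee (n - 2)

end

end Pool.Agent.Adm.Dim
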