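import Pool.Agent.MP_0854a0_ag.Dim.St

/-! Basic properties of the transcendence degree of a finite family. -/

namespace Pool.Agent.Adm.Dim

namespace TdX

theorem card_le {K k ι κ : Type} [Field K] [Field k] [Algebra K k] [Fintype ι] [Fintype κ]
    {a : ι → k} (ha : AlgebraicIndependent K a) (b : κ → k)
    (hb : ∀ s, IsAlgebraic (Algebra.adjoin K (Set.range b)) (a s)) :
    Fintype.card ι ≤ Fintype.card κ := by
  classical
  have h1 : (AlgebraicIndependent.matroid K k).Indep (Set.range a) :=
    AlgebraicIndependent.matroid_indep_iff.2 ha.to_subtype_range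
  have h2 : Set.range a ⊆ (AlgebraicIndependent.matroid K k).closure (Set.range b) := by
    rintro _ ⟨s, rfl⟩
    rw [AlgebraicIndependent.matroid_closure_eq]
    exact hb s
  have h3 := h1.encard_le_eRk_of_subset h2
  rw [Matroid.eRk_closure_eq] at h3
  have h4 := h3.trans (Matroid.eRk_le_encard _ _)
  have h5 : (Set.range a).encard = (Fintype.card ι : ℕ∞) := by
    rw [← Set.image_univ, ha.injective.encard_image, Set.encard_univ, ENat.card_eq_coe_fintype_card]
  have h6 : (Set.range b).encard ≤ (Fintype.card κ : ℕ∞) := by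
    rw [← Set.image_univ]
    refine (Set.encard_image_le _ _).trans ?_
    rw [Set.encard_univ, ENat.card_eq_coe_fintype_card]
  rw [h5] at h4
  exact_mod_cast h4.trans h6

theorem alg_of_mem {K k : Type} [Field K] [Field k] [Algebra K k] (A : Subalgebra K k)
    {T : Set k} (hT : ∀ x ∈ T, IsAlgebraic A x) {x : k} (hx : x ∈ Subfield.closure T) :
    IsAlgebraic A x := by
  induction hx using Subfield.closure_induction with
  | mem x hx => exact hT x hx
  | one => exact isAlgebraic_one
  | add x y _ _ h1 h2 => exact h1.add h2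
  | neg x _ h1 => exact h1.neg
  | inv x _ h1 => exact h1.inv
  | mul x y _ _ h1 h2 => exact h1.mul h2

theorem mono {k σ σ' : Type} [Field k] [Fintype σ] [Fintype σ'] (θ : K0 →+* k) (a : σ → k)
    (b : σ' → k) (h : ∀ s, a s ∈ Subfield.closure (Set.range θ ∪ Set.range b)) :
    td θ a ≤ td θ b := by
  classical
  obtain ⟨S, hS, e⟩ := exists_td_TD θ b
  let _ : Algebra K0 k := θ.toAlgebra
  have hiff : ∀ T : Finset σ', AlgebraicIndepOn K0 b (T : Set σ') ↔ Indep θ fun i : T => b i :=
    fun T => algebraicIndependent_iff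
  have hr : (Set.range fun i : S => b i) = b '' (S : Set σ') := by
    ext y; simp
  set A := Algebra.adjoin K0 (b '' (S : Set σ')) with hA
  have halg : ∀ s, IsAlgebraic A (b s) := fun s => by
    by_cases hs : s ∈ S
    · exact isAlgebraic_algebraMap
        (⟨b s, Algebra.subset_adjoin ⟨s, Finset.mem_coe.2 hs, rfl⟩⟩ : A)
    · by_contra hn
      have h1 : AlgebraicIndepOn K0 b (insert s (S : Set σ')) :=
        (AlgebraicIndepOn.insert_iff (by simpa using hs)).2 ⟨(hiff S).2 hS, hn⟩
      rw [← Finset.coe_insert, hiff] at h1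
      have h2 := le_td _ h1
      rw [Finset.card_insert_of_notMem hs] at h2
      omega
  have ha : ∀ s, IsAlgebraic A (a s) := fun s => by
    refine alg_of_mem A ?_ (h s)
    rintro x (⟨c, rfl⟩ | ⟨t, rfl⟩)
    · exact isAlgebraic_algebraMap (⟨θ c, A.algebraMap_mem c⟩ : A)
    · exact halg t
  refine td_le _ fun T hT => ?_
  have h1 : AlgebraicIndependent K0 fun i : T => a i := algebraicIndependent_iff.2 hT
  have h2 := card_le h1 (fun i : S => b i) (fun s => by rw [hr]; exact ha s)
  rw [Fintype.card_coe, Fintype.card_coe] at h2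
  omega

theorem change {k σ : Type} [Field k] [Fintype σ] (θ θ' : K0 →+* k) (a : σ → k) :
    td θ a ≤ td θ' a :=
  td_le _ fun S hS => le_td S (indep_change_FLD θ' θ hS)

theorem map_eq {k k' σ : Type} [Field k] [Field k'] [Fintype σ] (θ : K0 →+* k) (ψ : k →+* k')
    (a : σ → k) : td (ψ.comp θ) (fun s => ψ (a s)) = td θ a := by
  have e : ∀ f : MvPolynomial σ K0,
      MvPolynomial.eval₂ (ψ.comp θ) (fun s => ψ (a s)) f = ψ (MvPolynomial.eval₂ θ a f) :=
    fun f => (MvPolynomial.hom_eval₂ f θ ψ a).symm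
  refine le_antisymm (KerLe.td_le fun f hf => ?_) (KerLe.td_le fun f hf => ?_)
  · rw [e, hf, map_zero]
  · rw [e] at hf
    exact ψ.injective (by rw [hf, map_zero])

end TdX

theorem sTd : STd :=
  ⟨fun _ _ _ _ _ _ θ a b h => TdX.mono θ a b h,
    fun _ _ _ _ θ θ' a => le_antisymm (TdX.change θ θ' a) (TdX.change θ' θ a),
    fun _ _ _ _ _ _ θ ψ a => TdX.map_eq θ ψ a⟩

end Pool.Agent.Adm.Dim
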