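import Pool.Agent.MP_0854a0_ag.Dim.St

/-! Adjoining one element raises the transcendence degree by at most one. -/

namespace Pool.Agent.Adm.Dim

namespace Td2X

theorem trdeg_simple {k C : Type} [Field k] [Field C] [Algebra k C] (s : C) :
    Algebra.trdeg k (IntermediateField.adjoin k {s}) ≤ 1 := by
  have h1 : IntermediateField.adjoin k {IntermediateField.AdjoinSimple.gen k s} = ⊤ := by
    apply IntermediateField.lift_injective
    rw [IntermediateField.lift_adjoin_simple, IntermediateField.lift_top]
    rfl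
  have h2 : Algebra.IsAlgebraic
      (IntermediateField.adjoin k {IntermediateField.AdjoinSimple.gen k s})
      (IntermediateField.adjoin k {s}) := ⟨fun x =>
    isAlgebraic_algebraMap (⟨x, by rw [h1]; trivial⟩ :
      IntermediateField.adjoin k {IntermediateField.AdjoinSimple.gen k s})⟩
  have h3 := IntermediateField.isAlgebraic_adjoin_iff_top.1 h2
  have h4 := Algebra.IsAlgebraic.trdeg_le_cardinalMk k {IntermediateField.AdjoinSimple.gen k s}
  rwa [Cardinal.mk_singleton] at h4

theorem trdeg_le {k : Type} [Field k] [Algebra K0 k] {e : ℕ} (h : TdLe k e) :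
    Algebra.trdeg K0 k ≤ e := by
  obtain ⟨B, hB⟩ := exists_isTranscendenceBasis K0 k
  rw [← hB.cardinalMk_eq_trdeg]
  refine Cardinal.card_le_of fun S => ?_
  have h1 := h (algebraMap K0 k) S (fun i => i.1.1)
    (((indep_iff_FLD _).2 hB.1).comp (fun i : S => i.1) Subtype.val_injective)
  rwa [Fintype.card_coe] at h1

theorem main {k C σ : Type} [Field k] [Field C] [Fintype σ] [Algebra K0 k] [Algebra k C]
    [Algebra K0 C] [IsScalarTower K0 k C] (s : C) (a : σ → C) (e : ℕ) (h : TdLe k e)
    (ha : ∀ x, a x ∈ IntermediateField.adjoin k {s}) : td (algebraMap K0 C) a ≤ e + 1 := by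
  refine td_le _ fun S hS => ?_
  have h1 : AlgebraicIndependent K0 fun i : S => (⟨a i, ha i⟩ : IntermediateField.adjoin k {s}) :=
    AlgebraicIndependent.of_comp
      ((IntermediateField.adjoin k {s}).val.restrictScalars K0) ((indep_iff_FLD _).1 hS)
  have h2 := h1.cardinalMk_le_trdeg
  rw [← trdeg_add_eq K0 k, Cardinal.mk_fintype, Fintype.card_coe] at h2
  have h3 := h2.trans (add_le_add (trdeg_le h) (trdeg_simple s))
  exact_mod_cast h3

end Td2X

theorem sTd2 : STd2 := by
  intro k C σ _ _ _ θ φ s a e h ha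
  let _ : Algebra K0 k := θ.toAlgebra
  let _ : Algebra k C := φ.toAlgebra
  let _ : Algebra K0 C := (φ.comp θ).toAlgebra
  have _ : IsScalarTower K0 k C := IsScalarTower.of_algebraMap_eq fun _ => rfl
  exact Td2X.main s a e h ha

end Pool.Agent.Adm.Dim
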