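import Pool.Agent.MP_0854a0_ag.Dim.St

/-! One more modulus on a block. -/

namespace Pool.Agent.Adm.Dim

open Sum

namespace UpX

theorem cr_inj {k : Type} [Field k] {a b c x y : k} (hab : a ≠ b) (hac : a ≠ c) (hbc : b ≠ c)
    (hx : x ≠ c) (hy : y ≠ c) (h : cr a b c x = cr a b c y) : x = y := by
  have n1 := sub_ne_zero.2 hab.symm
  have n2 := sub_ne_zero.2 hac
  have n3 := sub_ne_zero.2 hbc
  have n4 := sub_ne_zero.2 hx
  have n5 := sub_ne_zero.2 hy
  unfold cr at h
  field_simp at h
  have : (x - y) * (a - c) = 0 := by linear_combination h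
  exact sub_eq_zero.1 ((mul_eq_zero.1 this).resolve_right n2)

variable {k k' σ : Type} [Field k] [Field k'] [Algebra k k'] [DecidableEq σ]

/-- the family with a transcendental added at `j` -/
def bump (c : σ → k) (j : σ) (x : k') (s : σ) : k' :=
  algebraMap k k' (c s) + if s = j then x else 0

theorem bump_ne (c : σ → k) {j : σ} (x : k') {s : σ} (h : s ≠ j) :
    bump c j x s = algebraMap k k' (c s) := by
  rw [bump, if_neg h, add_zero]

theorem kerLe (θ : K0 →+* k) (c : σ → k) (j : σ) {x : k'} (hx : Transcendental k x) :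
    KerLe ((algebraMap k k').comp θ) (bump c j x) θ c := by
  intro f hf
  have e1 := MvPolynomial.eval₂_comp_left (Polynomial.aeval x : Polynomial k →ₐ[k] k').toRingHom
    (Polynomial.C.comp θ) (fun s => Polynomial.C (c s) + if s = j then Polynomial.X else 0) f
  have e2 := MvPolynomial.eval₂_comp_left (Polynomial.evalRingHom (0 : k))
    (Polynomial.C.comp θ) (fun s => Polynomial.C (c s) + if s = j then Polynomial.X else 0) f
  have a1 : (Polynomial.aeval x : Polynomial k →ₐ[k] k').toRingHom.comp (Polynomial.C.comp θ) =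
      (algebraMap k k').comp θ := by
    ext a
    simp
  have a2 : (Polynomial.aeval x : Polynomial k →ₐ[k] k').toRingHom ∘
      (fun s => Polynomial.C (c s) + if s = j then Polynomial.X else 0) = bump c j x := by
    funext s
    by_cases h : s = j <;> simp [bump, h]
  have b1 : (Polynomial.evalRingHom (0 : k)).comp (Polynomial.C.comp θ) = θ := by
    ext a
    simp
  have b2 : (Polynomial.evalRingHom (0 : k)) ∘
      (fun s => Polynomial.C (c s) + if s = j then Polynomial.X else 0) = c := by
    funext s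
    by_cases h : s = j <;> simp [h]
  rw [a1, a2, hf] at e1
  rw [b1, b2, (injective_iff_map_eq_zero _).1 (transcendental_iff_injective.1 hx) _ e1,
    map_zero] at e2
  exact e2.symm

theorem upper [Fintype σ] (θ : K0 →+* k) (c : σ → k) (j : σ) (x : k') :
    td ((algebraMap k k').comp θ) (bump c j x) ≤ td θ c + 1 := by
  refine td_le _ fun T hT => ?_
  have h1 : Indep θ fun i : T.erase j => c i := fun f hf => by
    refine hT.comp (fun i : T.erase j => (⟨i.1, Finset.mem_of_mem_erase i.2⟩ : T))
      (fun a b h => Subtype.ext (congrArg Subtype.val h :)) f ?_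
    have e := MvPolynomial.eval₂_comp_left (algebraMap k k') θ (fun i : T.erase j => c i) f
    rw [hf, map_zero] at e
    rw [e]
    congr 1
    funext i
    exact bump_ne c x (Finset.ne_of_mem_erase i.2)
  have h2 := le_td _ h1
  have h3 := Finset.pred_card_le_card_erase (s := T) (a := j)
  omega

theorem lower [Fintype σ] (θ : K0 →+* k) (c : σ → k) {j : σ} {x : k'} (hx : Transcendental k x)
    {S : Finset σ} (hS : Indep θ fun i : S => c i) (hj : j ∉ S) :
    S.card + 1 ≤ td ((algebraMap k k').comp θ) (bump c j x) := by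
  let _ : Algebra K0 k := θ.toAlgebra
  let _ : Algebra K0 k' := ((algebraMap k k').comp θ).toAlgebra
  have : IsScalarTower K0 k k' := IsScalarTower.of_algebraMap_eq fun _ => rfl
  have h1 : AlgebraicIndependent K0 fun i : S => c i := algebraicIndependent_iff.2 hS
  have h2 : AlgebraicIndependent k fun _ : Unit => algebraMap k k' (c j) + x :=
    algebraicIndependent_unique_type_iff.2 fun h => hx (by
      simpa using h.sub (isAlgebraic_algebraMap (c j)))
  have h3 : Indep ((algebraMap k k').comp θ) (Sum.elim (fun _ : Unit => algebraMap k k' (c j) + x)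
      (algebraMap k k' ∘ fun i : S => c i)) := algebraicIndependent_iff.1 (h1.sumElim_comp h2)
  have hm : ∀ i : (insert j S : Finset σ), i.1 ∉ S → i.1 = j := fun i hi =>
    (Finset.mem_insert.1 i.2).resolve_right hi
  have h4 := h3.comp (fun i : (insert j S : Finset σ) =>
    if h : i.1 ∈ S then (inr ⟨i.1, h⟩ : Unit ⊕ S) else inl ()) fun a b h => by
      by_cases ha : a.1 ∈ S <;> by_cases hb : b.1 ∈ S <;> simp only [ha, hb, dif_pos, dif_neg,
        not_false_eq_true, reduceCtorEq, inr.injEq, Subtype.mk.injEq] at h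
      · exact Subtype.ext h
      · exact Subtype.ext ((hm a ha).trans (hm b hb).symm)
  rw [← Finset.card_insert_of_notMem hj]
  refine le_td _ ?_
  convert h4 using 2 with i
  by_cases hi : i.1 ∈ S
  · rw [dif_pos hi, bump_ne c x fun e : i.1 = j => hj (e ▸ hi)]
    rfl
  · rw [dif_neg hi, hm i hi, bump, if_pos rfl]
    rfl

end UpX

open UpX in
theorem sUp (hT : STd) (hM : SMd) : SUp := by
  classical
  have _ := hT
  intro B hB
  obtain ⟨i0⟩ := B.ne
  have h01 : (inl false : Bool ⊕ B.ι) ≠ inr i0 := inl_ne_inr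
  have h02 : (inl false : Bool ⊕ B.ι) ≠ inl true := by simp
  have h12 : (inr i0 : Bool ⊕ B.ι) ≠ inl true := inr_ne_inl
  set c : Bool ⊕ B.ι → B.k := fun s => cr (B.p (inl false)) (B.p (inr i0)) (B.p (inl true)) (B.p s)
    with hc
  have ht : B.t = td B.θ c :=
    hM.1 B.k _ _ B.θ B.p _ _ _ id B.inj h01 h02 h12 Function.surjective_id
  obtain ⟨S, hS, e⟩ := exists_td_TD B.θ c
  obtain ⟨j, hj⟩ : ∃ j, j ∉ insert (inl false) (insert (inr i0) (insert (inl true) S)) := by
    by_contra hn
    have h1 := Finset.card_le_card (s := Finset.univ) fun j _ => not_not.1 (not_exists.1 hn j)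
    have h2 := Finset.card_insert_le (inl false) (insert (inr i0) (insert (inl true) S))
    have h3 := Finset.card_insert_le (inr i0) (insert (inl true) S)
    have h4 := Finset.card_insert_le (inl true) S
    rw [Finset.card_univ, Fintype.card_sum, Fintype.card_bool] at h1
    unfold Blk.sz at hB
    omega
  simp only [Finset.mem_insert, not_or] at hj
  obtain ⟨j0, j1, j2, jS⟩ := hj
  have hx : Transcendental B.k
      (algebraMap (RatFunc B.k) (AlgebraicClosure (RatFunc B.k)) RatFunc.X) :=
    (transcendental_algebraMap_iff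
      (algebraMap (RatFunc B.k) (AlgebraicClosure (RatFunc B.k))).injective).2 RatFunc.transcendental_X
  generalize algebraMap (RatFunc B.k) (AlgebraicClosure (RatFunc B.k)) RatFunc.X = x at hx
  have hk := kerLe B.θ c j hx
  have n10 := sub_ne_zero.2 (B.inj.ne h01.symm)
  have n12 := sub_ne_zero.2 (B.inj.ne h12)
  obtain ⟨p', hp', e'⟩ := exists_cr_eq (bump c j x) (s0 := inl false) (s1 := inr i0)
    (s2 := inl true) (by rw [bump_ne c x (Ne.symm j0)]; simp [hc, cr])
    (by
      rw [bump_ne c x (Ne.symm j1), ← map_one (algebraMap B.k _)]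
      congr 1
      simp only [hc, cr]
      field_simp)
    (by rw [bump_ne c x (Ne.symm j2)]; simp [hc, cr]) h02
    fun s s' hs hs' h => B.inj (cr_inj (B.inj.ne h01) (B.inj.ne h02) (B.inj.ne h12) (B.inj.ne hs)
      (B.inj.ne hs') (hk.eq_of_eq h))
  let B' : Blk := ⟨AlgebraicClosure (RatFunc B.k), (algebraMap B.k _).comp B.θ, B.ι, p', hp'⟩
  have ht' : B'.t = td ((algebraMap B.k _).comp B.θ) (bump c j x) := by
    rw [← funext e']
    exact hM.1 _ _ _ _ p' _ _ _ id hp' h01 h02 h12 Function.surjective_id
  refine ⟨B', rfl, fun G _ _ g0 g1 R ⟨d, hd⟩ => ⟨d, ?_⟩, ?_, ?_⟩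
  · refine VC.gen_cr B.inj hp' h01 h02 h12 ?_ hd
    rw [funext e']
    exact hk
  · rw [ht, ht', e]
    exact lower B.θ c hx hS jS
  · rw [ht, ht']
    exact upper B.θ c j x

end Pool.Agent.Adm.Dim
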